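import Mathlib

set_option autoImplicit false

/-!
Host-Kra type cube groups over a finite join-semilattice of vertices.
-/

namespace Pool.Agent.MP_829a29_al

open scoped commutatorElement

section HK

variable {G : Type*} [Group G] {V : Type*} [SemilatticeSup V]

open Classical in
/-- The function equal to `g` on the vertices above `S` and to `1` elsewhere. -/
noncomputable def face (S : V) (g : G) : V → G := fun v => if S ≤ v then g else 1

lemma face_of_le {S v : V} (g : G) (h : S ≤ v) : face S g v = g := by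
  simp [face, h]

lemma face_of_not_le {S v : V} (g : G) (h : ¬ S ≤ v) : face S g v = 1 := by
  simp [face, h]

lemma face_one (S : V) : face S (1 : G) = 1 := by
  funext v; simp [face]

lemma face_mul (S : V) (g h : G) : face S g * face S h = face S (g * h) := by
  funext v
  by_cases hv : S ≤ v <;> simp [face, hv]

lemma face_inv (S : V) (g : G) : (face S g)⁻¹ = face S g⁻¹ := by
  funext v
  by_cases hv : S ≤ v <;> simp [face, hv]

lemma face_conj (S T : V) (t g : G) :
    face T t * face S g * (face T t)⁻¹ = face (T ⊔ S) ⁅t, g⁆ * face S g := by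
  funext v
  by_cases hT : T ≤ v <;> by_cases hS : S ≤ v <;>
    simp [face, hT, hS, commutatorElement_def]

/-- The group generated by the faces based at the vertices in `U`. -/
def HKon (F : V → Subgroup G) (U : Set V) : Subgroup (V → G) :=
  Subgroup.closure {γ | ∃ S ∈ U, ∃ g ∈ F S, γ = face S g}

/-- The cube group. -/
def HK (F : V → Subgroup G) : Subgroup (V → G) := HKon F Set.univ

lemma face_mem_HKon {F : V → Subgroup G} {U : Set V} {S : V} {g : G} (hS : S ∈ U)
    (hg : g ∈ F S) : face S g ∈ HKon F U :=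
  Subgroup.subset_closure ⟨S, hS, g, hg, rfl⟩

lemma face_mem_HK {F : V → Subgroup G} {S : V} {g : G} (hg : g ∈ F S) : face S g ∈ HK F :=
  face_mem_HKon (Set.mem_univ S) hg

lemma HKon_apply_eq_one {F : V → Subgroup G} {U : Set V} (hU : IsUpperSet U) {γ : V → G}
    (hγ : γ ∈ HKon F U) {v : V} (hv : v ∉ U) : γ v = 1 := by
  induction hγ using Subgroup.closure_induction with
  | mem x hx =>
    obtain ⟨S, hS, g, -, rfl⟩ := hx
    exact face_of_not_le g fun h => hv (hU h hS)
  | one => rfl
  | mul x y _ _ hx hy => simp [hx, hy]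
  | inv x _ hx => simp [hx]

lemma isUpperSet_diff_minimal {U : Set V} (hU : IsUpperSet U) {T : V} (hT : Minimal (· ∈ U) T) :
    IsUpperSet (U \ {T}) := by
  intro a b hab ha
  refine ⟨hU hab ha.1, ?_⟩
  intro hb
  have hb' : b = T := hb
  subst hb'
  exact ha.2 (le_antisymm hab (hT.2 ha.1 hab))

lemma conj_mem_HKon {F : V → Subgroup G} (hF : ∀ S T, ⁅F S, F T⁆ ≤ F (S ⊔ T)) {U : Set V}
    (hU : IsUpperSet U) {T : V} {t : G} (ht : t ∈ F T) {β : V → G} (hβ : β ∈ HKon F U) :
    face T t * β * (face T t)⁻¹ ∈ HKon F U := by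
  induction hβ using Subgroup.closure_induction with
  | mem x hx =>
    obtain ⟨S, hS, g, hg, rfl⟩ := hx
    rw [face_conj]
    exact Subgroup.mul_mem _
      (face_mem_HKon (hU le_sup_right hS) (hF T S (Subgroup.commutator_mem_commutator ht hg)))
      (face_mem_HKon hS hg)
  | one => simp
  | mul x y _ _ hx hy =>
    have := Subgroup.mul_mem _ hx hy
    convert this using 1
    group
  | inv x _ hx =>
    have := Subgroup.inv_mem _ hx
    convert this using 1
    group

lemma exists_decomp {F : V → Subgroup G} (hF : ∀ S T, ⁅F S, F T⁆ ≤ F (S ⊔ T)) {U : Set V}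
    (hU : IsUpperSet U) {T : V} (hT : Minimal (· ∈ U) T) {γ : V → G} (hγ : γ ∈ HKon F U) :
    ∃ β ∈ HKon F (U \ {T}), ∃ t ∈ F T, γ = β * face T t := by
  have hU' := isUpperSet_diff_minimal hU hT
  induction hγ using Subgroup.closure_induction with
  | mem x hx =>
    obtain ⟨S, hS, g, hg, rfl⟩ := hx
    by_cases h : S = T
    · subst h
      exact ⟨1, Subgroup.one_mem _, g, hg, by simp⟩
    · exact ⟨face S g, face_mem_HKon ⟨hS, h⟩ hg, 1, Subgroup.one_mem _, by simp [face_one]⟩
  | one => exact ⟨1, Subgroup.one_mem _, 1, Subgroup.one_mem _, by simp [face_one]⟩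
  | mul x y _ _ hx hy =>
    obtain ⟨β₁, h₁, t₁, ht₁, rfl⟩ := hx
    obtain ⟨β₂, h₂, t₂, ht₂, rfl⟩ := hy
    refine ⟨β₁ * (face T t₁ * β₂ * (face T t₁)⁻¹),
      Subgroup.mul_mem _ h₁ (conj_mem_HKon hF hU' ht₁ h₂), t₁ * t₂,
      Subgroup.mul_mem _ ht₁ ht₂, ?_⟩
    rw [← face_mul]
    group
  | inv x _ hx =>
    obtain ⟨β, h, t, ht, rfl⟩ := hx
    refine ⟨face T t⁻¹ * β⁻¹ * (face T t⁻¹)⁻¹,
      conj_mem_HKon hF hU' (Subgroup.inv_mem _ ht) (Subgroup.inv_mem _ h), t⁻¹,
      Subgroup.inv_mem _ ht, ?_⟩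
    rw [← face_inv]
    group

lemma exists_minimal_mem [Finite V] {U : Set V} (hne : U.Nonempty) :
    ∃ T, Minimal (· ∈ U) T :=
  (Set.toFinite U).exists_minimal hne

/-- The corner property of the cube group. -/
lemma corner_HKon [Finite V] {F : V → Subgroup G} (hF : ∀ S T, ⁅F S, F T⁆ ≤ F (S ⊔ T))
    (H : Subgroup G) (S : V) (U : Set V) (hU : IsUpperSet U) :
    ∀ γ ∈ HKon F U, (∀ v < S, γ v ∈ H) → ∃ g ∈ F S, ∃ h ∈ H, γ S = g * h := by
  induction U using WellFoundedLT.induction with
  | ind U ih =>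
    intro γ hγ hH
    rcases U.eq_empty_or_nonempty with hE | hne
    · refine ⟨1, Subgroup.one_mem _, 1, Subgroup.one_mem _, ?_⟩
      rw [HKon_apply_eq_one hU hγ (by simp [hE])]
      simp
    · obtain ⟨T, hT⟩ := exists_minimal_mem hne
      have hU' := isUpperSet_diff_minimal hU hT
      have hlt : U \ {T} < U := Set.sdiff_singleton_ssubset.mpr hT.1
      obtain ⟨β, hβ, t, ht, rfl⟩ := exists_decomp hF hU hT hγ
      have hβT : β T = 1 := HKon_apply_eq_one hU' hβ (by simp)
      by_cases hTS : T ≤ S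
      · rcases hTS.lt_or_eq with hlt' | rfl
        · have htH : t ∈ H := by
            have := hH T hlt'
            simpa [hβT, face_of_le t (le_refl T)] using this
          have hface : ∀ v, face T t v ∈ H := by
            intro v
            by_cases hv : T ≤ v
            · rw [face_of_le t hv]; exact htH
            · rw [face_of_not_le t hv]; exact H.one_mem
          obtain ⟨g, hg, h, hh, e⟩ := ih _ hlt hU' β hβ (fun v hv => by
            have := H.mul_mem (hH v hv) (H.inv_mem (hface v))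
            simpa using this)
          refine ⟨g, hg, h * face T t S, H.mul_mem hh (hface S), ?_⟩
          simp [e, mul_assoc]
        · refine ⟨t, ht, 1, H.one_mem, ?_⟩
          simp [hβT, face_of_le t (le_refl T)]
      · obtain ⟨g, hg, h, hh, e⟩ := ih _ hlt hU' β hβ (fun v hv => by
            have := hH v hv
            simpa [face_of_not_le t (fun h => hTS (h.trans hv.le))] using this)
        refine ⟨g, hg, h, hh, ?_⟩
        simp [e, face_of_not_le t hTS]

/-- Transfer of cube-group elements along an upper adjoint `π` of vertex sets. -/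
lemma comp_mem_HK {W : Type*} [SemilatticeSup W] {F : W → Subgroup G} {F' : V → Subgroup G}
    (π : V → W) (σ : W → V) (hgc : ∀ S v, S ≤ π v ↔ σ S ≤ v) (hle : ∀ S, F S ≤ F' (σ S))
    {γ : W → G} (hγ : γ ∈ HK F) : (fun v => γ (π v)) ∈ HK F' := by
  induction hγ using Subgroup.closure_induction with
  | mem x hx =>
    obtain ⟨S, -, g, hg, rfl⟩ := hx
    have : (fun v => face S g (π v)) = face (σ S) g := by
      funext v
      by_cases hv : σ S ≤ v
      · rw [face_of_le g hv, face_of_le g ((hgc S v).2 hv)]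
      · rw [face_of_not_le g hv, face_of_not_le g (fun h => hv ((hgc S v).1 h))]
    rw [this]
    exact face_mem_HK (hle S hg)
  | one => exact Subgroup.one_mem _
  | mul x y _ _ hx hy => exact Subgroup.mul_mem _ hx hy
  | inv x _ hx => exact Subgroup.inv_mem _ hx

variable {X : Type*} [MulAction G X]

/-- Cubes in a `G`-set with base point `x₀`. -/
def IsCube (F : V → Subgroup G) (x₀ : X) (c : V → X) : Prop :=
  ∃ γ ∈ HK F, ∀ v, γ v • x₀ = c v

lemma IsCube.smul {F : V → Subgroup G} {x₀ : X} {c : V → X} (hc : IsCube F x₀ c) {δ : V → G}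
    (hδ : δ ∈ HK F) : IsCube F x₀ (fun v => δ v • c v) := by
  obtain ⟨γ, hγ, e⟩ := hc
  exact ⟨δ * γ, Subgroup.mul_mem _ hδ hγ, fun v => by simp [mul_smul, e]⟩

lemma isCube_base (F : V → Subgroup G) (x₀ : X) : IsCube F x₀ (fun _ => x₀) :=
  ⟨1, Subgroup.one_mem _, fun v => by simp⟩

lemma IsCube.comp {W : Type*} [SemilatticeSup W] {F : W → Subgroup G} {F' : V → Subgroup G}
    (π : V → W) (σ : W → V) (hgc : ∀ S v, S ≤ π v ↔ σ S ≤ v) (hle : ∀ S, F S ≤ F' (σ S))
    {x₀ : X} {c : W → X} (hc : IsCube F x₀ c) : IsCube F' x₀ (fun v => c (π v)) := by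
  obtain ⟨γ, hγ, e⟩ := hc
  exact ⟨fun v => γ (π v), comp_mem_HK π σ hgc hle hγ, fun v => e _⟩

/-- Two cubes that agree strictly below `S` differ at `S` by an element of `F S`. -/
lemma IsCube.corner [Finite V] {F : V → Subgroup G} (hF : ∀ S T, ⁅F S, F T⁆ ≤ F (S ⊔ T))
    (hN : ∀ S, (F S).Normal) {x₀ : X} {c c' : V → X} (hc : IsCube F x₀ c) (hc' : IsCube F x₀ c')
    (S : V) (h : ∀ v < S, c v = c' v) : ∃ g ∈ F S, g • c S = c' S := by
  obtain ⟨γ, hγ, e⟩ := hc
  obtain ⟨γ', hγ', e'⟩ := hc'
  obtain ⟨g, hg, s, hs, es⟩ := corner_HKon hF (MulAction.stabilizer G x₀) S Set.univ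
    isUpperSet_univ (γ⁻¹ * γ') (Subgroup.mul_mem _ (Subgroup.inv_mem _ hγ) hγ') (fun v hv => by
      rw [MulAction.mem_stabilizer_iff]
      simp only [Pi.mul_apply, Pi.inv_apply, mul_smul]
      rw [e', ← h v hv, ← e, inv_smul_smul])
  refine ⟨γ S * g * (γ S)⁻¹, (hN S).conj_mem g hg _, ?_⟩
  have h1 : γ' S = γ S * (g * s) := by
    rw [← es]; simp
  rw [← e, ← e', h1]
  simp only [mul_smul, inv_smul_smul]
  rw [MulAction.mem_stabilizer_iff.1 hs]

/-- A function all of whose corners can be corrected inside the filtration is a cube. -/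
lemma isCube_of_corner [Finite V] {F : V → Subgroup G} {x₀ : X} {d : V → X}
    (h : ∀ c, IsCube F x₀ c → ∀ S, (∀ v < S, c v = d v) → ∃ g ∈ F S, g • c S = d S) :
    IsCube F x₀ d := by
  have key : ∀ U : Set V, IsUpperSet U → ∀ c, IsCube F x₀ c → (∀ v ∉ U, c v = d v) →
      IsCube F x₀ d := by
    intro U
    induction U using WellFoundedLT.induction with
    | ind U ih =>
      intro hU c hc hcd
      rcases U.eq_empty_or_nonempty with hE | hne
      · have : c = d := funext fun v => hcd v (by simp [hE])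
        exact this ▸ hc
      · obtain ⟨T, hT⟩ := exists_minimal_mem hne
        have hU' := isUpperSet_diff_minimal hU hT
        have hlt : U \ {T} < U := Set.sdiff_singleton_ssubset.mpr hT.1
        obtain ⟨g, hg, e⟩ := h c hc T (fun v hv => hcd v fun hvU =>
          hv.not_ge (hT.2 hvU hv.le))
        refine ih _ hlt hU' _ (hc.smul (face_mem_HK hg)) ?_
        intro v hv
        by_cases hvT : v = T
        · subst hvT
          rw [face_of_le g le_rfl, e]
        · have hvU : v ∉ U := fun hvU => hv ⟨hvU, hvT⟩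
          rw [face_of_not_le g (fun hle => hvU (hU hle hT.1)), one_smul, hcd v hvU]
  exact key Set.univ isUpperSet_univ _ (isCube_base F x₀) (by simp)

/-- For the trivial filtration every function lies in the cube group. -/
lemma mem_HK_top [Finite V] (γ : V → G) : γ ∈ HK (fun _ : V => (⊤ : Subgroup G)) := by
  have : IsCube (fun _ : V => (⊤ : Subgroup G)) (1 : G) γ :=
    isCube_of_corner fun c _ S _ => ⟨γ S * (c S)⁻¹, Subgroup.mem_top _, by simp⟩
  obtain ⟨δ, hδ, e⟩ := this
  have : δ = γ := funext fun v => by simpa using e v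
  exact this ▸ hδ

end HK

end Pool.Agent.MP_829a29_al
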