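import Mathlib

set_option autoImplicit false

namespace Pool.Agent.MP_829a29_al

universe u

/-- A loop: `1` is a two-sided identity, `ldiv a b` is the unique `x` with `a * x = b`, and
`rdiv b a` is the unique `x` with `x * a = b`. -/
class Loop (Q : Type u) extends Mul Q, One Q where
  ldiv : Q → Q → Q
  rdiv : Q → Q → Q
  one_mul : ∀ a : Q, 1 * a = a
  mul_one : ∀ a : Q, a * 1 = a
  mul_eq_iff_eq_ldiv : ∀ a b x : Q, a * x = b ↔ x = ldiv a b
  mul_eq_iff_eq_rdiv : ∀ a b x : Q, x * a = b ↔ x = rdiv b a

/-- The multiplication group: the group of permutations of `Q` generated by all left and right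
translations. -/
def Mlt (Q : Type u) [Loop Q] : Subgroup (Equiv.Perm Q) :=
  Subgroup.closure {σ : Equiv.Perm Q | ∃ a : Q, (∀ x, σ x = a * x) ∨ (∀ x, σ x = x * a)}

/-- The `n`-ary polynomial operations: the maps `Q^n → Q` built from the variables and the
constants from `Q` by multiplication and the two divisions. -/
inductive IsPolynomialOp {Q : Type u} [Loop Q] {n : ℕ} : ((Fin n → Q) → Q) → Prop
  | var (i : Fin n) : IsPolynomialOp (fun x => x i)
  | const (a : Q) : IsPolynomialOp (fun _ => a)
  | mul {p q : (Fin n → Q) → Q} :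
      IsPolynomialOp p → IsPolynomialOp q → IsPolynomialOp (fun x => p x * q x)
  | ldiv {p q : (Fin n → Q) → Q} :
      IsPolynomialOp p → IsPolynomialOp q → IsPolynomialOp (fun x => Loop.ldiv (p x) (q x))
  | rdiv {p q : (Fin n → Q) → Q} :
      IsPolynomialOp p → IsPolynomialOp q → IsPolynomialOp (fun x => Loop.rdiv (p x) (q x))

/-- An operation is absorbing if it takes the value `1` whenever some argument is `1`. -/
def IsAbsorbing {Q : Type u} [Loop Q] {n : ℕ} (p : (Fin n → Q) → Q) : Prop :=
  ∀ x : Fin n → Q, (∃ i, x i = 1) → p x = 1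

/-- `Q` is `k`-supernilpotent: every absorbing polynomial operation of arity `> k` is
constant. -/
def IsKSupernilpotent (Q : Type u) [Loop Q] (k : ℕ) : Prop :=
  ∀ n : ℕ, k < n → ∀ p : (Fin n → Q) → Q, IsPolynomialOp p → IsAbsorbing p →
    ∃ c : Q, ∀ x, p x = c

end Pool.Agent.MP_829a29_al
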