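import Mathlib
import Pool.Agent.MP_829a29_al.Defs
import Pool.Agent.MP_829a29_al.Cubes

set_option autoImplicit false

namespace Pool.Agent.MP_829a29_al

section LCS

variable (G : Type*) [Group G]

/-- The lower central series, indexed from `0`. -/
abbrev lcs (j : ℕ) : Subgroup G := (⊤ : Subgroup G).lowerCentralSeries j

variable {G}

lemma three_subgroups {A B C N : Subgroup G} [N.Normal] (h1 : ⁅⁅B, C⁆, A⁆ ≤ N)
    (h2 : ⁅⁅C, A⁆, B⁆ ≤ N) : ⁅⁅A, B⁆, C⁆ ≤ N := by
  have key : ∀ K : Subgroup G, K ≤ N ↔ K.map (QuotientGroup.mk' N) = ⊥ := by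
    intro K
    rw [Subgroup.map_eq_bot_iff, QuotientGroup.ker_mk']
  rw [key] at h1 h2 ⊢
  simp only [Subgroup.map_commutator] at h1 h2 ⊢
  exact Subgroup.commutator_commutator_eq_bot_of_rotate h1 h2

lemma commutator_lcs (j : ℕ) : ∀ i : ℕ, ⁅lcs G i, lcs G j⁆ ≤ lcs G (i + j + 1) := by
  induction j with
  | zero => intro i; exact le_rfl
  | succ j ih =>
    intro i
    rw [Subgroup.commutator_comm]
    change ⁅⁅lcs G j, ⊤⁆, lcs G i⁆ ≤ _
    apply three_subgroups
    · rw [Subgroup.commutator_comm ⊤ (lcs G i)]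
      have := ih (i + 1)
      rw [show i + (j + 1) + 1 = i + 1 + j + 1 by ring]
      exact this
    · have := ih i
      rw [show i + (j + 1) + 1 = (i + j + 1) + 1 by ring]
      exact Subgroup.commutator_mono this le_rfl

lemma lcs_anti {i j : ℕ} (h : i ≤ j) : lcs G j ≤ lcs G i :=
  Subgroup.lowerCentralSeries_antitone ⊤ h

lemma filtration_of_index {V : Type*} [SemilatticeSup V] (a : V → ℕ)
    (ha : ∀ S T, a (S ⊔ T) ≤ a S + a T + 1) (S T : V) :
    ⁅lcs G (a S), lcs G (a T)⁆ ≤ lcs G (a (S ⊔ T)) :=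
  (commutator_lcs _ _).trans (lcs_anti (ha S T))

end LCS

section Index

variable {ι : Type*} [DecidableEq ι]

/-- The level of a vertex: the binary logarithm of its size, rounded up. -/
def lev (S : Finset ι) : ℕ := Nat.clog 2 S.card

lemma clog_two_mul_le (m : ℕ) : Nat.clog 2 (2 * m) ≤ Nat.clog 2 m + 1 := by
  rw [Nat.clog_le_iff_le_pow (by norm_num), pow_succ]
  have := Nat.le_pow_clog (b := 2) (by norm_num) m
  omega

lemma lev_union (S T : Finset ι) : lev (S ∪ T) ≤ max (lev S) (lev T) + 1 := by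
  have h := Finset.card_union_le S T
  unfold lev
  rcases le_total S.card T.card with hle | hle
  · calc Nat.clog 2 (S ∪ T).card ≤ Nat.clog 2 (2 * T.card) :=
          Nat.clog_mono_right 2 (by omega)
      _ ≤ Nat.clog 2 T.card + 1 := clog_two_mul_le _
      _ ≤ _ := by omega
  · calc Nat.clog 2 (S ∪ T).card ≤ Nat.clog 2 (2 * S.card) :=
          Nat.clog_mono_right 2 (by omega)
      _ ≤ Nat.clog 2 S.card + 1 := clog_two_mul_le _
      _ ≤ _ := by omega

omit [DecidableEq ι] in
lemma lev_empty : lev (∅ : Finset ι) = 0 := by simp [lev]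

omit [DecidableEq ι] in
lemma lev_singleton (i : ι) : lev ({i} : Finset ι) = 0 := by simp [lev]

/-- The index of the two-variable filtration adapted to left translations. -/
def levA (S T : Finset ι) : ℕ := if T = ∅ then 0 else if S = ∅ then lev T else lev T + 1

lemma levA_union (S S' T T' : Finset ι) :
    levA (S ∪ S') (T ∪ T') ≤ levA S T + levA S' T' + 1 := by
  have h := lev_union T T'
  unfold levA
  by_cases hT : T = ∅ <;> by_cases hT' : T' = ∅ <;> by_cases hS : S = ∅ <;>
    by_cases hS' : S' = ∅ <;> simp [hT, hT', hS, hS'] <;> omega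

lemma lev_union_le_levA (S T : Finset ι) : lev (S ∪ T) ≤ max (levA S T) (levA T S) := by
  have h := lev_union S T
  unfold levA
  by_cases hT : T = ∅ <;> by_cases hS : S = ∅ <;> simp [hT, hS, lev_empty]
  omega

end Index

section LoopCubes

variable {Q : Type*} [Loop Q] {G : Type*} [Group G] [MulAction G Q]
variable {ι : Type*} [Fintype ι] [DecidableEq ι]

/-- The filtration on the vertices of the cube. -/
abbrev FF (G : Type*) [Group G] (ι : Type*) : Finset ι → Subgroup G := fun S => lcs G (lev S)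

omit [Fintype ι] in
lemma FF_filtration (S T : Finset ι) : ⁅FF G ι S, FF G ι T⁆ ≤ FF G ι (S ⊔ T) :=
  filtration_of_index (G := G) (fun S : Finset ι => lev S) (fun S T => by
    have := lev_union S T
    simp only [Finset.sup_eq_union]
    omega) S T

lemma cube_mul (l r : Q → G) (hl : ∀ a b, l a • b = a * b) (hr : ∀ a b, r b • a = a * b)
    {c c' : Finset ι → Q} (hc : IsCube (FF G ι) (1 : Q) c) (hc' : IsCube (FF G ι) (1 : Q) c') :
    IsCube (FF G ι) (1 : Q) (fun v => c v * c' v) := by
  let A : Finset ι × Finset ι → Subgroup G := fun P => lcs G (levA P.1 P.2)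
  let B : Finset ι × Finset ι → Subgroup G := fun P => lcs G (levA P.2 P.1)
  let C : Finset ι × Finset ι → Subgroup G := fun P => lcs G (max (levA P.1 P.2) (levA P.2 P.1))
  have hA : ∀ P P', ⁅A P, A P'⁆ ≤ A (P ⊔ P') :=
    filtration_of_index (G := G) (fun P : Finset ι × Finset ι => levA P.1 P.2)
      (fun P P' => levA_union _ _ _ _)
  have hB : ∀ P P', ⁅B P, B P'⁆ ≤ B (P ⊔ P') :=
    filtration_of_index (G := G) (fun P : Finset ι × Finset ι => levA P.2 P.1)
      (fun P P' => levA_union _ _ _ _)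
  have gfst : ∀ (S : Finset ι) (v : Finset ι × Finset ι), S ≤ v.1 ↔ (S, (∅ : Finset ι)) ≤ v := by
    intro S v; simp [Prod.le_def]
  have gsnd : ∀ (S : Finset ι) (v : Finset ι × Finset ι), S ≤ v.2 ↔ ((∅ : Finset ι), S) ≤ v := by
    intro S v; simp [Prod.le_def]
  have hΦA : IsCube A (1 : Q) (fun P : Finset ι × Finset ι => c P.1 * c' P.2) := by
    have h1 : IsCube A (1 : Q) (fun P : Finset ι × Finset ι => c' P.2) :=
      hc'.comp Prod.snd (fun S => (∅, S)) gsnd (fun S => by
        apply lcs_anti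
        simp only [levA]
        split_ifs <;> simp_all)
    have h2 : (fun P : Finset ι × Finset ι => l (c P.1)) ∈ HK A :=
      comp_mem_HK Prod.fst (fun S => (S, ∅)) gfst (fun S => by simp [A, levA, lcs])
        (mem_HK_top (fun v => l (c v)))
    simpa only [hl] using h1.smul h2
  have hΦB : IsCube B (1 : Q) (fun P : Finset ι × Finset ι => c P.1 * c' P.2) := by
    have h1 : IsCube B (1 : Q) (fun P : Finset ι × Finset ι => c P.1) :=
      hc.comp Prod.fst (fun S => (S, ∅)) gfst (fun S => by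
        apply lcs_anti
        simp only [levA]
        split_ifs <;> simp_all)
    have h2 : (fun P : Finset ι × Finset ι => r (c' P.2)) ∈ HK B :=
      comp_mem_HK Prod.snd (fun S => (∅, S)) gsnd (fun S => by simp [B, levA, lcs])
        (mem_HK_top (fun v => r (c' v)))
    simpa only [hr] using h1.smul h2
  have hid : ∀ S v : Finset ι × Finset ι, S ≤ id v ↔ id S ≤ v := fun _ _ => Iff.rfl
  have hΦC : IsCube C (1 : Q) (fun P : Finset ι × Finset ι => c P.1 * c' P.2) := by
    apply isCube_of_corner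
    intro d hd P hP
    rcases le_total (levA P.1 P.2) (levA P.2 P.1) with hle | hle
    · have hdB : IsCube B (1 : Q) d :=
        hd.comp id id hid (fun S => lcs_anti (le_max_right _ _))
      obtain ⟨g, hg, e⟩ := IsCube.corner hB (fun _ => inferInstance) hdB hΦB P hP
      exact ⟨g, by simpa only [C, max_eq_right hle] using hg, e⟩
    · have hdA : IsCube A (1 : Q) d :=
        hd.comp id id hid (fun S => lcs_anti (le_max_left _ _))
      obtain ⟨g, hg, e⟩ := IsCube.corner hA (fun _ => inferInstance) hdA hΦA P hP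
      exact ⟨g, by simpa only [C, max_eq_left hle] using hg, e⟩
  exact IsCube.comp (F := C) (F' := FF G ι) (fun v : Finset ι => (v, v))
    (fun P : Finset ι × Finset ι => P.1 ⊔ P.2)
    (fun P v => by rw [Prod.le_def, sup_le_iff])
    (fun P => lcs_anti (lev_union_le_levA P.1 P.2)) hΦC

lemma cube_ldiv (l r : Q → G) (hl : ∀ a b, l a • b = a * b) (hr : ∀ a b, r b • a = a * b)
    {c c' : Finset ι → Q} (hc : IsCube (FF G ι) (1 : Q) c) (hc' : IsCube (FF G ι) (1 : Q) c') :
    IsCube (FF G ι) (1 : Q) (fun v => Loop.ldiv (c v) (c' v)) := by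
  apply isCube_of_corner
  intro d hd S hS
  have hm : ∀ a b : Q, a * Loop.ldiv a b = b := fun a b =>
    (Loop.mul_eq_iff_eq_ldiv a b _).2 rfl
  obtain ⟨g, hg, e⟩ := IsCube.corner FF_filtration (fun _ => inferInstance)
    (cube_mul l r hl hr hc hd) hc' S (fun v hv => by rw [hS v hv, hm])
  refine ⟨(l (c S))⁻¹ * g * (l (c S))⁻¹⁻¹,
    (inferInstance : (FF G ι S).Normal).conj_mem g hg _, ?_⟩
  rw [inv_inv, mul_smul, mul_smul, hl, e, inv_smul_eq_iff, hl, hm]

lemma cube_rdiv (l r : Q → G) (hl : ∀ a b, l a • b = a * b) (hr : ∀ a b, r b • a = a * b)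
    {c c' : Finset ι → Q} (hc : IsCube (FF G ι) (1 : Q) c) (hc' : IsCube (FF G ι) (1 : Q) c') :
    IsCube (FF G ι) (1 : Q) (fun v => Loop.rdiv (c v) (c' v)) := by
  apply isCube_of_corner
  intro d hd S hS
  have hm : ∀ a b : Q, Loop.rdiv b a * a = b := fun a b =>
    (Loop.mul_eq_iff_eq_rdiv a b _).2 rfl
  obtain ⟨g, hg, e⟩ := IsCube.corner FF_filtration (fun _ => inferInstance)
    (cube_mul l r hl hr hd hc') hc S (fun v hv => by rw [hS v hv, hm])
  refine ⟨(r (c' S))⁻¹ * g * (r (c' S))⁻¹⁻¹,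
    (inferInstance : (FF G ι S).Normal).conj_mem g hg _, ?_⟩
  rw [inv_inv, mul_smul, mul_smul, hr, e, inv_smul_eq_iff, hr, hm]

lemma cube_const (l : Q → G) (hl : ∀ a b, l a • b = a * b) (a : Q) :
    IsCube (FF G ι) (1 : Q) (fun _ => a) :=
  ⟨face ∅ (l a), face_mem_HK (by rw [FF, lev_empty]; exact Subgroup.mem_top _), fun v => by
    rw [face_of_le _ (Finset.empty_subset v), hl, Loop.mul_one]⟩

lemma cube_edge (l : Q → G) (hl : ∀ a b, l a • b = a * b) (a : Q) (i : ι) :
    IsCube (FF G ι) (1 : Q) (fun v => if i ∈ v then a else 1) :=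
  ⟨face {i} (l a), face_mem_HK (by rw [FF, lev_singleton]; exact Subgroup.mem_top _), fun v => by
    by_cases hv : i ∈ v
    · rw [face_of_le _ (by simpa using hv), hl, Loop.mul_one]; simp [hv]
    · rw [face_of_not_le _ (by simpa using hv), one_smul]; simp [hv]⟩

lemma cube_poly (l r : Q → G) (hl : ∀ a b, l a • b = a * b) (hr : ∀ a b, r b • a = a * b)
    {n : ℕ} {p : (Fin n → Q) → Q} (hp : IsPolynomialOp p) (x : Fin n → Q) :
    IsCube (FF G (Fin n)) (1 : Q) (fun v => p (fun i => if i ∈ v then x i else 1)) := by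
  induction hp with
  | var i => exact cube_edge l hl (x i) i
  | const a => exact cube_const l hl a
  | mul _ _ hp hq => exact cube_mul l r hl hr hp hq
  | ldiv _ _ hp hq => exact cube_ldiv l r hl hr hp hq
  | rdiv _ _ hp hq => exact cube_rdiv l r hl hr hp hq

lemma supernilpotent_of_action (l r : Q → G) (hl : ∀ a b, l a • b = a * b)
    (hr : ∀ a b, r b • a = a * b) (k : ℕ) (hk : lcs G k = ⊥) :
    IsKSupernilpotent Q (2 ^ (k - 1)) := by
  intro n hn p hp habs
  refine ⟨1, fun x => ?_⟩
  obtain ⟨g, hg, e⟩ := IsCube.corner FF_filtration (fun _ => inferInstance)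
    (isCube_base (FF G (Fin n)) (1 : Q)) (cube_poly l r hl hr hp x) Finset.univ (fun v hv => by
      obtain ⟨i, -, hi⟩ := Finset.exists_of_ssubset hv
      exact (habs _ ⟨i, by simp [hi]⟩).symm)
  have hlev : k ≤ lev (Finset.univ : Finset (Fin n)) := by
    have : k - 1 < Nat.clog 2 n := (Nat.lt_clog_iff_pow_lt (by norm_num)).2 hn
    simp only [lev, Finset.card_univ, Fintype.card_fin]
    omega
  have hg1 : g = 1 := by
    have := lcs_anti hlev hg
    rw [hk] at this
    exact this
  simpa [hg1] using e.symm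

end LoopCubes

section MltAction

variable {Q : Type*} [Loop Q]

/-- The left translation as an element of the multiplication group. -/
def leftMlt (a : Q) : Mlt Q :=
  ⟨{ toFun := fun x => a * x
     invFun := fun b => Loop.ldiv a b
     left_inv := fun x => ((Loop.mul_eq_iff_eq_ldiv a _ x).1 rfl).symm
     right_inv := fun b => (Loop.mul_eq_iff_eq_ldiv a b _).2 rfl },
    Subgroup.subset_closure ⟨a, Or.inl fun _ => rfl⟩⟩

/-- The right translation as an element of the multiplication group. -/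
def rightMlt (a : Q) : Mlt Q :=
  ⟨{ toFun := fun x => x * a
     invFun := fun b => Loop.rdiv b a
     left_inv := fun x => ((Loop.mul_eq_iff_eq_rdiv a _ x).1 rfl).symm
     right_inv := fun b => (Loop.mul_eq_iff_eq_rdiv a b _).2 rfl },
    Subgroup.subset_closure ⟨a, Or.inr fun _ => rfl⟩⟩

theorem supernilpotent_of_isNilpotent_Mlt [Group.IsNilpotent (Mlt Q)] :
    IsKSupernilpotent Q (2 ^ (Group.nilpotencyClass (Mlt Q) - 1)) :=
  supernilpotent_of_action (G := Mlt Q) leftMlt rightMlt (fun _ _ => rfl) (fun _ _ => rfl) _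
    Subgroup.lowerCentralSeries_nilpotencyClass

end MltAction

end Pool.Agent.MP_829a29_al
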