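import Mathlib
import Pool.Agent.MP_829a29_al.Defs

set_option autoImplicit false

namespace Pool.Agent.MP_829a29_al

universe u

/-- A normal subloop: a subloop `N` with `xN = Nx`, `(xy)N = x(yN)` and `N(xy) = (Nx)y`. -/
structure IsNormalSubloop {Q : Type u} [Loop Q] (N : Set Q) : Prop where
  one_mem : (1 : Q) ∈ N
  mul_mem : ∀ a ∈ N, ∀ b ∈ N, a * b ∈ N
  ldiv_mem : ∀ a ∈ N, ∀ b ∈ N, Loop.ldiv a b ∈ N
  rdiv_mem : ∀ a ∈ N, ∀ b ∈ N, Loop.rdiv a b ∈ N
  comm : ∀ x : Q, (fun n => x * n) '' N = (fun n => n * x) '' N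
  assoc_left : ∀ x y : Q, (fun n => (x * y) * n) '' N = (fun n => x * (y * n)) '' N
  assoc_right : ∀ x y : Q, (fun n => n * (x * y)) '' N = (fun n => (n * x) * y) '' N

/-- The coset `aN` lies in the center of `Q / N`: modulo `N`, the element `a` commutes and
associates, in every position, with all elements. -/
def IsCentralMod {Q : Type u} [Loop Q] (N : Set Q) (a : Q) : Prop :=
  ∀ x y : Q, (∃ n ∈ N, a * x = (x * a) * n) ∧ (∃ n ∈ N, (a * x) * y = (a * (x * y)) * n) ∧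
    (∃ n ∈ N, (x * a) * y = (x * (a * y)) * n) ∧ (∃ n ∈ N, (x * y) * a = (x * (y * a)) * n)

/-- There are normal subloops `1 = N 0 ≤ N 1 ≤ ⋯ ≤ N k = Q` with `N (i+1) / N i ≤ Z (Q / N i)`. -/
def HasCentralSeries (Q : Type u) [Loop Q] (k : ℕ) : Prop :=
  ∃ N : ℕ → Set Q, (∀ i ≤ k, IsNormalSubloop (N i)) ∧ N 0 = {1} ∧ N k = Set.univ ∧
    ∀ i < k, N i ⊆ N (i + 1) ∧ ∀ a ∈ N (i + 1), IsCentralMod (N i) a

/-- The central nilpotency class of `Q` is `n`, the nilpotency class of its multiplication group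
is `c`, and its supernilpotency class is `s`. -/
def HasClasses (Q : Type u) [Loop Q] (n c s : ℕ) : Prop :=
  IsLeast {k | HasCentralSeries Q k} n ∧
    (Group.IsNilpotent (Mlt Q) ∧ Group.nilpotencyClass (Mlt Q) = c) ∧
    IsLeast {k | 1 ≤ k ∧ IsKSupernilpotent Q k} s

end Pool.Agent.MP_829a29_al
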