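import Pool.Agent.MP_829a29_al.TriUp

set_option autoImplicit false

/-!
Triangular polynomial loops: upper bounds for the three classes through weights.
-/

namespace Pool.Agent.MP_829a29_al.Tri

open scoped commutatorElement

section degree

variable {X R κ : Type} [CommRing R] {φ : κ → X → R} {w : κ → ℕ}

/-- Polynomial functions of weighted degree less than `e` in the functions `φ i`. -/
inductive Dg (φ : κ → X → R) (w : κ → ℕ) : ℕ → (X → R) → Prop
  | zero (e : ℕ) : Dg φ w e 0
  | const (e : ℕ) (c : R) : Dg φ w (e + 1) fun _ => c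
  | atom (e : ℕ) (i : κ) : w i < e → Dg φ w e (φ i)
  | add {e : ℕ} {f g : X → R} : Dg φ w e f → Dg φ w e g → Dg φ w e (f + g)
  | mul {e e' e'' : ℕ} {f g : X → R} : Dg φ w (e + 1) f → Dg φ w (e' + 1) g → e + e' < e'' →
      Dg φ w e'' (f * g)

theorem Dg.of_eq {e : ℕ} {f g : X → R} (h : Dg φ w e f) (e1 : ∀ x, f x = g x) : Dg φ w e g :=
  funext e1 ▸ h

theorem Dg.mono {e e' : ℕ} {f : X → R} (h : Dg φ w e f) (he : e ≤ e') : Dg φ w e' f := by
  induction h with
  | zero => exact .zero _
  | const e c =>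
    obtain ⟨k, rfl⟩ := Nat.exists_eq_add_one_of_ne_zero (show e' ≠ 0 by omega)
    exact .const k c
  | atom e i hi => exact .atom _ i (hi.trans_le he)
  | add _ _ h1 h2 => exact (h1 he).add (h2 he)
  | mul h1 h2 h3 => exact h1.mul h2 (h3.trans_le he)

theorem Dg.eq_zero {e : ℕ} {f : X → R} (h : Dg φ w e f) (he : e = 0) : f = 0 := by
  induction h with
  | zero => rfl
  | const => omega
  | atom => omega
  | add _ _ h1 h2 => rw [h1 he, h2 he, add_zero]
  | mul => omega

theorem Dg.mul' {a b c : ℕ} {f g : X → R} (hf : Dg φ w a f) (hg : Dg φ w b g)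
    (h : 0 < a → 0 < b → a + b ≤ c + 1) : Dg φ w c (f * g) := by
  rcases a with _ | a
  · rw [hf.eq_zero rfl, zero_mul]; exact .zero _
  rcases b with _ | b
  · rw [hg.eq_zero rfl, mul_zero]; exact .zero _
  exact hf.mul hg (by omega)

theorem Dg.sub {e : ℕ} {f g : X → R} (hf : Dg φ w e f) (hg : Dg φ w e g) : Dg φ w e (f - g) := by
  have := hf.add ((Dg.const 0 (-1)).mul' hg (by omega))
  rwa [show f + (fun _ => -1) * g = f - g by funext x; simp [sub_eq_add_neg]] at this

theorem Dg.pow {e : ℕ} {f : X → R} (hf : Dg φ w (e + 1) f) (k : ℕ) :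
    Dg φ w (k * e + 1) (f ^ k) := by
  induction k with
  | zero => rw [pow_zero]; exact .const _ (1 : R)
  | succ k ih => rw [pow_succ]; exact ih.mul hf (by rw [Nat.succ_mul]; omega)

theorem Dg.of_drop {e k : ℕ} {f f' : X → R} (hf : Dg φ w e f) (h : Dg φ w (e - k) (f' - f)) :
    Dg φ w e f' := by
  have := (h.mono (Nat.sub_le e k)).add hf
  rwa [sub_add_cancel] at this

theorem Dg.drop {g : X → X} {k : ℕ} (hg : ∀ i, Dg φ w (w i + 1 - k) (φ i ∘ g - φ i)) {e : ℕ}
    {f : X → R} (h : Dg φ w e f) : Dg φ w (e - k) (f ∘ g - f) := by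
  induction h with
  | zero => exact (sub_self (0 : X → R)).symm ▸ .zero _
  | const e c => exact (sub_self (fun _ : X => c)).symm ▸ .zero _
  | atom e i hi => exact (hg i).mono (by omega)
  | @add e f f' _ _ h1 h2 =>
    have := h1.add h2
    rwa [show f ∘ g - f + (f' ∘ g - f') = (f + f') ∘ g - (f + f') by funext x; simp; ring] at this
  | @mul e e' e'' f f' h1 h2 h3 h4 h5 =>
    have := (h4.mul' (c := e'' - k) (h2.of_drop h5) (by omega)).add (h1.mul' h5 (by omega))
    rwa [show (f ∘ g - f) * f' ∘ g + f * (f' ∘ g - f') = (f * f') ∘ g - f * f' by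
      funext x; simp; ring] at this

/-- The permutations lowering the degree by `k + 1`. -/
def low (φ : κ → X → R) (w : κ → ℕ) (k : ℕ) : Subgroup (Equiv.Perm X) where
  carrier := {g | ∀ e f, Dg φ w e f → Dg φ w (e - (k + 1)) (f ∘ g - f)}
  one_mem' e f _ := (sub_self f).symm ▸ .zero _
  mul_mem' {g h} hg hh e f hf := by
    have := ((hg e f hf).of_drop (hh _ _ (hg e f hf))).add (hh e f hf)
    rwa [show (f ∘ g - f) ∘ h + (f ∘ h - f) = f ∘ ⇑(g * h) - f by funext x; simp] at this
  inv_mem' {g} hg := by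
    have key : ∀ e f, Dg φ w e f → Dg φ w e (f ∘ ⇑g⁻¹) := fun e => by
      induction e using Nat.strong_induction_on with
      | _ e ih =>
        intro f hf
        rcases e with _ | e
        · rw [hf.eq_zero rfl]; exact .zero _
        have := hf.sub ((ih _ (by omega) _ (hg _ f hf)).mono (Nat.sub_le _ _))
        rwa [show f - (f ∘ g - f) ∘ ⇑g⁻¹ = f ∘ ⇑g⁻¹ by funext x; simp] at this
    intro e f hf
    have := (Dg.zero _).sub (key _ _ (hg e f hf))
    rwa [show 0 - (f ∘ g - f) ∘ ⇑g⁻¹ = f ∘ ⇑g⁻¹ - f by funext x; simp] at this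

theorem low_comm {k : ℕ} {g h : Equiv.Perm X} (hg : g ∈ low φ w k) (hg0 : g ∈ low φ w 0)
    (hh : h ∈ low φ w 0) : ⁅g, h⁆ ∈ low φ w (k + 1) := fun e f hf => by
  have h1 := (hh _ _ (hg e f hf)).sub ((hg _ _ (hh e f hf)).mono (by omega))
  have := (h1.of_drop (mul_mem (inv_mem hg0) (inv_mem hh) _ _ h1)).mono
    (show _ ≤ e - (k + 1 + 1) by omega)
  rwa [show ((f ∘ g - f) ∘ h - (f ∘ g - f) - ((f ∘ h - f) ∘ g - (f ∘ h - f))) ∘ ⇑(g⁻¹ * h⁻¹) =
    f ∘ ⇑⁅g, h⁆ - f by funext x; simp [commutatorElement_def]; ring] at this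

theorem low_le (k : ℕ) : low φ w k ≤ low φ w 0 := fun _ hg e f hf => (hg e f hf).mono (by omega)

theorem absorb {k : ℕ} (s : Finset (Fin k)) : ∀ (e : ℕ) (f : (Fin k → R) → R),
    Dg (fun i t => t i) (fun _ => 1) e f → e ≤ s.card → (∀ t, (∃ i ∈ s, t i = 0) → f t = 0) →
    ∀ t, (∀ i ∈ s, t i = 1) → f t = 0 := by
  induction s using Finset.induction_on with
  | empty => intro e f hf he _ t _; rw [hf.eq_zero (by simpa using he)]; rfl
  | insert i s hi ih =>
    intro e f hf he h0 t ht
    have h1 := ih (e - 1) _ (hf.drop (g := fun t => t - Pi.single i 1) fun j => by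
      rw [show ((fun t : Fin k → R => t j) ∘ fun t => t - Pi.single i 1) - (fun t : Fin k → R => t j) =
        fun _ => -(Pi.single i 1 : Fin k → R) j by funext t; simp]
      exact .const 0 _) (by rw [Finset.card_insert_of_notMem hi] at he; omega) (by
        rintro t ⟨j, hj, h⟩
        have : j ≠ i := fun h => hi (h ▸ hj)
        rw [Pi.sub_apply, Function.comp_apply, h0 t ⟨j, Finset.mem_insert_of_mem hj, h⟩,
          h0 _ ⟨j, Finset.mem_insert_of_mem hj, by simp [this, h]⟩, sub_self]) t
      fun j hj => ht j (Finset.mem_insert_of_mem hj)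
    rwa [Pi.sub_apply, Function.comp_apply, h0 _ ⟨i, Finset.mem_insert_self _ _, by
      simp [ht i (Finset.mem_insert_self _ _)]⟩, zero_sub, neg_eq_zero] at h1

end degree

/-- The data of a triangular loop. -/
structure Dat (ι : Type) where
  on : ι → Prop
  a : ι → ι
  b : ι → ι
  α : ι → ℕ
  β : ι → ℕ
  l : ι → ℕ
  α_ne : ∀ j, on j → α j ≠ 0
  β_ne : ∀ j, on j → β j ≠ 0
  l_pos : ∀ j, 0 < l j
  la : ∀ j, on j → l (a j) < l j
  lb : ∀ j, on j → l (b j) < l j

/-- The carrier. -/
@[ext] structure TQ {ι : Type} (D : Dat ι) (R : Type) where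
  c : ι → R

variable {ι : Type} {D : Dat ι} {R : Type} [CommRing R]

instance [Finite ι] [Finite R] : Finite (TQ D R) := Finite.of_injective TQ.c fun _ _ => TQ.ext

open Classical in
/-- The cocycle. -/
noncomputable def th (j : ι) (x y : TQ D R) : R :=
  if D.on j then x.c (D.a j) ^ D.α j * y.c (D.b j) ^ D.β j else 0

theorem th_on {j : ι} (h : D.on j) (x y : TQ D R) :
    th j x y = x.c (D.a j) ^ D.α j * y.c (D.b j) ^ D.β j := if_pos h

theorem th_off {j : ι} (h : ¬ D.on j) (x y : TQ D R) : th j x y = 0 := if_neg h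

/-- Agreement in the levels up to `k`. -/
def Ag (k : ℕ) (x y : TQ D R) : Prop := ∀ j, D.l j ≤ k → x.c j = y.c j

theorem th_congr {k : ℕ} {x x' y y' : TQ D R} (hx : Ag k x x') (hy : Ag k y y') {j : ι}
    (hj : D.l j ≤ k + 1) : th j x y = th j x' y' := by
  by_cases h : D.on j
  · rw [th_on h, th_on h, hx _ (by have := D.la j h; omega), hy _ (by have := D.lb j h; omega)]
  · rw [th_off h, th_off h]

/-- The multiplication. -/
noncomputable def tmul (x y : TQ D R) : TQ D R := ⟨fun j => x.c j + y.c j + th j x y⟩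

theorem ag_left (k : ℕ) (a : TQ D R) {x y : TQ D R} (h : Ag k (tmul a x) (tmul a y)) :
    Ag k x y := by
  induction k with
  | zero => exact fun j hj => absurd (D.l_pos j) (by omega)
  | succ k ih =>
    intro j hj
    have h1 : a.c j + x.c j + th j a x = a.c j + y.c j + th j a y := h j hj
    rw [th_congr (fun _ _ => rfl) (ih fun i hi => h i (by omega)) hj] at h1
    simpa using h1

theorem ag_right (k : ℕ) (a : TQ D R) {x y : TQ D R} (h : Ag k (tmul x a) (tmul y a)) :
    Ag k x y := by
  induction k with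
  | zero => exact fun j hj => absurd (D.l_pos j) (by omega)
  | succ k ih =>
    intro j hj
    have h1 : x.c j + a.c j + th j x a = y.c j + a.c j + th j y a := h j hj
    rw [th_congr (ih fun i hi => h i (by omega)) (fun _ _ => rfl) hj] at h1
    simpa using h1

theorem th_zero_left (j : ι) (y : TQ D R) : th j ⟨fun _ => 0⟩ y = 0 := by
  by_cases h : D.on j
  · rw [th_on h, zero_pow (D.α_ne j h), zero_mul]
  · exact th_off h _ _

theorem th_zero_right (j : ι) (x : TQ D R) : th j x ⟨fun _ => 0⟩ = 0 := by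
  by_cases h : D.on j
  · rw [th_on h, zero_pow (D.β_ne j h), mul_zero]
  · exact th_off h _ _

variable [Finite ι] [Finite R]

theorem bij_left (a : TQ D R) : Function.Bijective (tmul a) :=
  Finite.injective_iff_bijective.1 fun _ _ h => TQ.ext (funext fun j =>
    ag_left (D.l j) a (fun i _ => by rw [h]) j le_rfl)

theorem bij_right (a : TQ D R) : Function.Bijective (tmul · a) :=
  Finite.injective_iff_bijective.1 fun _ _ h => TQ.ext (funext fun j =>
    ag_right (D.l j) a (fun i _ => congrFun (congrArg TQ.c h) i) j le_rfl)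

noncomputable instance : Loop (TQ D R) where
  mul := tmul
  one := ⟨fun _ => 0⟩
  ldiv a b := (Equiv.ofBijective _ (bij_left a)).symm b
  rdiv b a := (Equiv.ofBijective _ (bij_right a)).symm b
  one_mul a := TQ.ext (funext fun j => by
    show 0 + a.c j + th j ⟨fun _ => 0⟩ a = _
    rw [th_zero_left, zero_add, add_zero])
  mul_one a := TQ.ext (funext fun j => by
    show a.c j + 0 + th j a ⟨fun _ => 0⟩ = _
    rw [th_zero_right, add_zero, add_zero])
  mul_eq_iff_eq_ldiv a _ _ := (Equiv.ofBijective _ (bij_left a)).eq_symm_apply.symm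
  mul_eq_iff_eq_rdiv a _ _ := (Equiv.ofBijective _ (bij_right a)).eq_symm_apply.symm

theorem mul_c (x y : TQ D R) (j : ι) : (x * y).c j = x.c j + y.c j + th j x y := rfl

theorem one_c (j : ι) : (1 : TQ D R).c j = 0 := rfl

theorem ag_cong (k : ℕ) : Cong (Ag (D := D) (R := R) k) :=
  ⟨⟨fun _ _ _ => rfl, fun h j hj => (h j hj).symm, fun h h' j hj => (h j hj).trans (h' j hj)⟩,
    fun a _ _ => ⟨ag_left k a, fun h j hj => by
      rw [mul_c, mul_c, h j hj, th_congr (fun _ _ => rfl) h (by omega)]⟩,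
    fun a _ _ => ⟨ag_right k a, fun h j hj => by
      rw [mul_c, mul_c, h j hj, th_congr h (fun _ _ => rfl) (by omega)]⟩⟩

theorem th_l {k : ℕ} {z : TQ D R} (hz : Ag k z 1) (x : TQ D R) {j : ι} (hj : D.l j ≤ k + 1) :
    th j z x = 0 := (th_congr hz (fun _ _ => rfl) hj).trans (th_zero_left j x)

theorem th_r {k : ℕ} {z : TQ D R} (hz : Ag k z 1) (x : TQ D R) {j : ι} (hj : D.l j ≤ k + 1) :
    th j x z = 0 := (th_congr (fun _ _ => rfl) hz hj).trans (th_zero_right j x)

theorem ag_cen {k : ℕ} {z : TQ D R} (hz : Ag k z 1) : Cen (Ag (k + 1)) z := fun x y => by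
  have h1 : ∀ x, Ag k (z * x) x := fun x => by
    simpa [Loop.one_mul] using ((ag_cong k).right x).2 hz
  have h2 : ∀ x, Ag k (x * z) x := fun x => by
    simpa [Loop.mul_one] using ((ag_cong k).left x).2 hz
  refine ⟨fun j hj => ?_, fun j hj => ?_, fun j hj => ?_, fun j hj => ?_⟩ <;>
    simp only [mul_c, th_l hz _ hj, th_r hz _ hj, th_congr (h1 _) (fun _ _ => rfl) hj,
      th_congr (h2 _) (fun _ _ => rfl) hj, th_congr (fun _ _ => rfl) (h1 _) hj,
      th_congr (fun _ _ => rfl) (h2 _) hj] <;> ring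

theorem ag_rdiv {k : ℕ} {x y : TQ D R} (h : Ag k x y) : Ag k (Loop.rdiv x y) 1 :=
  ((ag_cong k).right y).1 (by rwa [rdiv_mul, Loop.one_mul])

theorem rdiv_c {k : ℕ} {x y : TQ D R} (h : Ag k x y) {j : ι} (hj : D.l j ≤ k + 1) :
    (Loop.rdiv x y).c j = x.c j - y.c j := by
  conv_rhs => rw [← rdiv_mul y x, mul_c, th_l (ag_rdiv h) _ hj]
  ring

theorem series_ub {n : ℕ} (h : ∀ j, D.l j ≤ n) : HasCentralSeries (TQ D R) n :=
  series_iff.2 ⟨fun i => Ag (n - i), fun _ _ => ag_cong _,
    fun _ _ h1 => TQ.ext (funext fun j => h1 j (h j)),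
    fun _ _ j hj => absurd (D.l_pos j) (by omega), fun i _ _ _ h1 j hj => h1 j (by omega),
    fun i hi a ha => by rw [show n - i = n - (i + 1) + 1 by omega]; exact ag_cen ha⟩

theorem class_ub {w : ι → ℕ} (h0 : ∀ j, 0 < w j) (ha : ∀ j, D.on j → D.α j * w (D.a j) < w j)
    (hb : ∀ j, D.on j → D.β j * w (D.b j) < w j) {c : ℕ} (hc : ∀ j, w j ≤ c) :
    lcs (Mlt (TQ D R)) c = ⊥ := by
  let φ : ι → TQ D R → R := fun j x => x.c j
  have h1 : ∀ g : Mlt (TQ D R), g.1 ∈ low φ w 0 := mlt_induction
    (fun a e f hf => hf.drop fun j => by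
      rw [show φ j ∘ (leftMlt a).1 - φ j = (fun _ => a.c j) + fun x => th j a x from
        funext fun x => by
          show a.c j + x.c j + th j a x - x.c j = a.c j + th j a x
          ring]
      refine ((Dg.const 0 _).mono (h0 j)).add ?_
      by_cases h : D.on j
      · simp only [th_on h]
        exact (Dg.const 0 _).mul ((Dg.atom _ _ (Nat.lt_succ_self _)).pow _) (by
          have := hb j h; omega)
      · simp only [th_off h]; exact .zero _)
    (fun a e f hf => hf.drop fun j => by
      rw [show φ j ∘ (rightMlt a).1 - φ j = (fun _ => a.c j) + fun x => th j x a from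
        funext fun x => by
          show x.c j + a.c j + th j x a - x.c j = a.c j + th j x a
          ring]
      refine ((Dg.const 0 _).mono (h0 j)).add ?_
      by_cases h : D.on j
      · simp only [th_on h]
        exact ((Dg.atom _ _ (Nat.lt_succ_self _)).pow _).mul (Dg.const 0 _) (by
          have := ha j h; omega)
      · simp only [th_off h]; exact .zero _)
    (one_mem _) (fun _ _ => mul_mem) fun _ => inv_mem
  have h2 : ∀ k, lcs (Mlt (TQ D R)) k ≤ (low φ w k).comap (Mlt (TQ D R)).subtype := fun k => by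
    induction k with
    | zero => exact fun g _ => h1 g
    | succ k ih =>
      exact Subgroup.commutator_le.2 fun g hg h _ => low_comm (ih hg) (h1 g) (h1 h)
  refine eq_bot_iff.2 fun g hg => Subgroup.mem_bot.2 (Subtype.ext (Equiv.ext fun x =>
    TQ.ext (funext fun j => ?_)))
  exact sub_eq_zero.1 (congrFun ((h2 c hg _ _ (.atom _ j (Nat.lt_succ_self _))).eq_zero (by
    have := hc j; omega)) x)

theorem sn_ub {σ : ι → ℕ} (h0 : ∀ j, 0 < σ j)
    (ha : ∀ j, D.on j → D.α j * σ (D.a j) + D.β j * σ (D.b j) ≤ σ j) {s : ℕ} (hs : ∀ j, σ j ≤ s) :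
    IsKSupernilpotent (TQ D R) s := by
  intro k hk p hp habs
  refine ⟨1, fun x => TQ.ext (funext fun j => ?_)⟩
  let u : (Fin k → R) → Fin k → TQ D R := fun t i => ⟨fun j => t i * (x i).c j⟩
  let P : ((Fin k → R) → TQ D R) → ι → Prop := fun f j =>
    Dg (fun i t => t i) (fun _ => 1) (σ j + 1) fun t => (f t).c j
  have h1 : ∀ f g j, (∀ i, D.l i < D.l j → P f i) → (∀ i, D.l i < D.l j → P g i) →
      Dg (fun i t => t i) (fun _ => 1) (σ j + 1) fun t => th j (f t) (g t) := fun f g j hf hg => by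
    by_cases h : D.on j
    · simp only [th_on h]
      exact ((hf _ (D.la j h)).pow _).mul ((hg _ (D.lb j h)).pow _) (by have := ha j h; omega)
    · simp only [th_off h]; exact .zero _
  have h2 : ∀ j, P (fun t => p (u t)) j := by
    clear habs
    induction hp with
    | var i =>
      exact fun j => (Dg.atom (φ := fun i (t : Fin k → R) => t i) 2 i (by simp)).mul (.const 0 _)
        (by have := h0 j; omega)
    | const a => exact fun j => Dg.const _ (a.c j)
    | mul _ _ hf hg =>
      exact fun j => ((hf j).add (hg j)).add (h1 _ _ j (fun i _ => hf i) fun i _ => hg i)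
    | @ldiv f g _ _ hf hg =>
      intro j
      induction hj : D.l j using Nat.strong_induction_on generalizing j with
      | _ n ih =>
        have := ((hg j).sub (hf j)).sub (h1 _ (fun t => Loop.ldiv (f (u t)) (g (u t))) j
          (fun i _ => hf i) fun i hi => ih _ (hj ▸ hi) i rfl)
        refine this.of_eq fun t => ?_
        simp only [Pi.sub_apply]
        conv_lhs => enter [1, 1]; rw [← mul_ldiv (f (u t)) (g (u t)), mul_c]
        ring
    | @rdiv f g _ _ hf hg =>
      intro j
      induction hj : D.l j using Nat.strong_induction_on generalizing j with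
      | _ n ih =>
        have := ((hf j).sub (hg j)).sub (h1 (fun t => Loop.rdiv (f (u t)) (g (u t))) _ j
          (fun i hi => ih _ (hj ▸ hi) i rfl) fun i _ => hg i)
        refine this.of_eq fun t => ?_
        simp only [Pi.sub_apply]
        conv_lhs => enter [1, 1]; rw [← rdiv_mul (g (u t)) (f (u t)), mul_c]
        ring
  have := absorb Finset.univ _ _ (h2 j) (by have := hs j; simp; omega) (by
    rintro t ⟨i, -, hi⟩
    show (p (u t)).c j = 0
    rw [habs _ ⟨i, TQ.ext (funext fun j => by simp [u, hi, one_c])⟩, one_c]) 1 fun _ _ => rfl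
  exact (show u 1 = x from funext fun i => TQ.ext (funext fun j => one_mul _)) ▸ this

end Pool.Agent.MP_829a29_al.Tri
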