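import Pool.Agent.MP_829a29_al.TriEx

set_option autoImplicit false

/-!
Triangular polynomial loops: lower bounds, and the loops with prescribed classes.
-/

namespace Pool.Agent.MP_829a29_al.Tri

open scoped commutatorElement Nat

theorem poly_subst {Q : Type*} [Loop Q] {m k : ℕ} {p : (Fin m → Q) → Q} (hp : IsPolynomialOp p)
    {s : (Fin k → Q) → Fin m → Q} (hs : ∀ i, IsPolynomialOp fun u => s u i) :
    IsPolynomialOp fun u => p (s u) := by
  induction hp with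
  | var i => exact hs i
  | const a => exact .const a
  | mul _ _ h1 h2 => exact h1.mul h2
  | ldiv _ _ h1 h2 => exact h1.ldiv h2
  | rdiv _ _ h1 h2 => exact h1.rdiv h2

variable {ι : Type} {D : Dat ι} {R : Type} [Field R] [Finite ι] [Finite R] [DecidableEq ι]

/-- The unit vectors. -/
def uv (i : ι) : TQ D R := ⟨Pi.single i 1⟩

omit [Finite ι] [Finite R] in
theorem uv_self (i : ι) : (uv i : TQ D R).c i = 1 := Pi.single_eq_same _ _

omit [Finite ι] [Finite R] in
theorem uv_ne {i j : ι} (h : j ≠ i) : (uv i : TQ D R).c j = 0 := Pi.single_eq_of_ne h _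

omit [DecidableEq ι] [Field R] [Finite ι] [Finite R] in
theorem ag_zero (x y : TQ D R) : Ag 0 x y := fun j hj => absurd (D.l_pos j) (by omega)

omit [DecidableEq ι] in
theorem comm_c {k : ℕ} {z : TQ D R} (hz : Ag k z 1) (y : TQ D R) {j : ι} (hj : D.l j ≤ k + 2) :
    (Loop.rdiv (z * y) (y * z)).c j = th j z y - th j y z := by
  rw [rdiv_c (ag_cen hz y y).1 hj, mul_c, mul_c]; ring

omit [DecidableEq ι] in
theorem assoc_c {k : ℕ} {z : TQ D R} (hz : Ag k z 1) (x y : TQ D R) {j : ι} (hj : D.l j ≤ k + 2)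
    (h : D.on j) (hα : D.α j = 1) (hβ : D.β j = 1) :
    (Loop.rdiv (z * x * y) (z * (x * y))).c j = -z.c (D.a j) * th (D.b j) x y := by
  rw [rdiv_c (ag_cen hz x y).2.1 hj]
  simp only [mul_c, th_on h, hα, hβ, pow_one, th_l hz x (show D.l (D.a j) ≤ k + 1 by
    have := D.la j h; omega)]
  ring

theorem series_lb {n : ℕ} {F : ℕ → ι} {e : ι} (he : D.l e = 1) (hne : e ≠ F 0)
    (hF : ∀ i, i + 1 < n → D.on (F (i + 1)) ∧ D.a (F (i + 1)) = e ∧ D.b (F (i + 1)) = F i ∧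
      D.α (F (i + 1)) = 1 ∧ D.β (F (i + 1)) = 1 ∧ D.l (F (i + 1)) ≤ i + 2) {k : ℕ}
    (h : HasCentralSeries (TQ D R) k) : n ≤ k := by
  obtain ⟨r, hr⟩ := series_iff.1 h
  let κ : ℕ → TQ D R := fun i => Nat.rec (uv (F 0)) (fun _ z => Loop.rdiv (z * uv e) (uv e * z)) i
  have h1 : ∀ i ≤ k, r (k - i) (κ i) 1 := fun i => by
    induction i with
    | zero => exact fun _ => hr.top _ _
    | succ i ih =>
      intro hi
      refine ((hr.cong _ (Nat.sub_le _ _)).right (uv e * κ i)).1 ?_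
      rw [Loop.one_mul, show κ (i + 1) * (uv e * κ i) = κ i * uv e from rdiv_mul _ _]
      exact (hr.cen _ (by omega) _ (by
        rw [show k - (i + 1) + 1 = k - i by omega]; exact ih (by omega)) _ 1).1
  have h2 : ∀ i < n, Ag i (κ i) 1 ∧ (κ i).c e = 0 ∧ (κ i).c (F i) ≠ 0 := fun i => by
    induction i with
    | zero => exact fun _ => ⟨ag_zero _ _, uv_ne hne, (uv_self (F 0)).trans_ne one_ne_zero⟩
    | succ i ih =>
      intro hi
      obtain ⟨h3, h4, h5⟩ := ih (by omega)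
      obtain ⟨g1, g2, g3, g4, g5, g6⟩ := hF i hi
      have h6 : Ag (i + 1) (κ (i + 1)) 1 := ag_rdiv (ag_cen h3 _ 1).1
      refine ⟨h6, h6 e (by omega), ?_⟩
      rw [show κ (i + 1) = Loop.rdiv (κ i * uv e) (uv e * κ i) from rfl, comm_c h3 _ g6, th_on g1,
        th_on g1, g2, g3, g4, g5, h4, uv_self]
      simpa using h5
  by_contra hn
  have := h1 k le_rfl
  rw [Nat.sub_self] at this
  exact (h2 k (by omega)).2.2 (by rw [hr.bot _ _ this, one_c])

theorem class_lb {M i0 i1 : ι} (hM : D.on M) (ha : D.a M = i0) (hb : D.b M = i1) (hβ : D.β M = 1)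
    (h0 : ¬ D.on i0) (h01 : i0 ≠ i1) (h1M : M ≠ i1) (h0M : M ≠ i0) (hf : ((D.α M)! : R) ≠ 0) :
    lcs (Mlt (TQ D R)) (D.α M) ≠ ⊥ := by
  have key : ∀ k, ∃ g ∈ lcs (Mlt (TQ D R)) k, ∀ x : TQ D R, (g • x).c i0 = x.c i0 ∧
      (g • x).c M = x.c M + (fwdDiff 1)^[k] (fun r : R => r ^ D.α M) (x.c i0) := fun k => by
    induction k with
    | zero =>
      refine ⟨rightMlt (uv i1), Subgroup.mem_top _, fun x => ⟨?_, ?_⟩⟩
      · show (x * uv i1).c i0 = _
        rw [mul_c, th_off h0, uv_ne h01, add_zero, add_zero]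
      · show (x * uv i1).c M = _
        rw [mul_c, th_on hM, ha, hb, uv_ne h1M, uv_self]; simp
    | succ k ih =>
      obtain ⟨g, hg, h⟩ := ih
      let S : Mlt (TQ D R) := rightMlt (uv i0)
      have hS : ∀ x : TQ D R, (S • x).c i0 = x.c i0 + 1 ∧ (S • x).c M = x.c M := fun x => ⟨by
        show (x * uv i0).c i0 = _
        rw [mul_c, th_off h0, uv_self, add_zero], by
        show (x * uv i0).c M = _
        rw [mul_c, th_on hM, hb, hβ, uv_ne h0M, uv_ne h01.symm]; simp⟩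
      refine ⟨⁅g⁻¹, S⁻¹⁆, Subgroup.commutator_mem_commutator (inv_mem hg)
        (Subgroup.mem_top _), fun x => ?_⟩
      have e1 := h (⁅g⁻¹, S⁻¹⁆ • x)
      have e2 := hS (g • ⁅g⁻¹, S⁻¹⁆ • x)
      rw [show S • g • ⁅g⁻¹, S⁻¹⁆ • x = g • S • x by
        simp [commutatorElement_def, mul_smul], (h _).1, (h _).2, (hS x).1, (hS x).2, e1.1,
        e1.2] at e2
      have e3 := add_right_cancel e2.1
      rw [Function.iterate_succ_apply', fwdDiff, ← add_sub_assoc, e2.2, e3]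
      exact ⟨rfl, (add_sub_cancel_right _ _).symm⟩
  intro hb
  obtain ⟨g, hg, h⟩ := key (D.α M)
  have := (h 1).2
  rw [hb, Subgroup.mem_bot] at hg
  rw [hg, one_smul, fwdDiff_iter_eq_factorial] at this
  exact hf (by simpa using this)

variable (D R) in
/-- An absorbing polynomial with values in high levels and a nonzero coordinate. -/
def Wit (m k : ℕ) (j : ι) : Prop :=
  ∃ p : (Fin m → TQ D R) → TQ D R, IsPolynomialOp p ∧ IsAbsorbing p ∧ (∀ u, Ag k (p u) 1) ∧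
    ∃ u, (p u).c j ≠ 0

variable (D R) in
/-- The same with two free arguments. -/
def Inv (i0 i1 : ι) (k : ℕ) (j : ι) (m : ℕ) (h g : R → R) : Prop :=
  ∃ P : TQ D R → TQ D R → (Fin m → TQ D R) → TQ D R,
    (∀ (n : ℕ) (x y : (Fin n → TQ D R) → TQ D R) (s : (Fin n → TQ D R) → Fin m → TQ D R),
      IsPolynomialOp x → IsPolynomialOp y → (∀ i, IsPolynomialOp fun u => s u i) →
      IsPolynomialOp fun u => P (x u) (y u) (s u)) ∧
    (∀ x y, IsAbsorbing (P x y)) ∧ (∀ x y w, Ag k (P x y w) 1) ∧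
    ∃ w, ∀ x y, x.c i1 = 0 → (P x y w).c j = h (x.c i0) * g (y.c i1)

variable {i0 i1 j : ι} {k m : ℕ} {h g : R → R}

theorem Inv.left (h0 : ¬ D.on i0) (h1 : ¬ D.on i1) (h01 : i1 ≠ i0) (hj : D.l j ≤ k + 1)
    (H : Inv D R i0 i1 k j m h g) : Inv D R i0 i1 k j (m + 1) (fwdDiff 1 h) g := by
  obtain ⟨P, p1, p2, p3, w, p4⟩ := H
  have e : ∀ x x' y w, Ag k (P x y w) (P x' y w) := fun x x' y w =>
    (ag_cong k).eqv.trans (p3 _ _ _) ((ag_cong k).eqv.symm (p3 _ _ _))
  refine ⟨fun x y w => Loop.rdiv (P (x * w 0) y (Fin.tail w)) (P x y (Fin.tail w)),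
    fun n x y s hx hy hs => (p1 n _ y _ (hx.mul (hs 0)) hy fun i => hs i.succ).rdiv
      (p1 n x y _ hx hy fun i => hs i.succ), ?_, fun x y w => ag_rdiv (e _ _ _ _),
    Fin.cons (uv i0) w, fun x y hx => ?_⟩
  · rintro x y w ⟨i, hi⟩
    cases i using Fin.cases with
    | zero => simp only [hi, Loop.mul_one, rdiv_self]
    | succ i => simp only [p2 _ y (Fin.tail w) ⟨i, hi⟩, rdiv_self]
  · rw [rdiv_c (e _ _ _ _) hj, Fin.tail_cons, Fin.cons_zero, p4 x y hx, p4 _ y (by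
      rw [mul_c, hx, uv_ne h01, th_off h1]; simp), mul_c, uv_self, th_off h0, add_zero, fwdDiff,
      sub_mul]

theorem Inv.right (h1 : ¬ D.on i1) (hj : D.l j ≤ k + 1)
    (H : Inv D R i0 i1 k j m h g) : Inv D R i0 i1 k j (m + 1) h (fwdDiff 1 g) := by
  obtain ⟨P, p1, p2, p3, w, p4⟩ := H
  have e : ∀ x y y' w, Ag k (P x y w) (P x y' w) := fun x y y' w =>
    (ag_cong k).eqv.trans (p3 _ _ _) ((ag_cong k).eqv.symm (p3 _ _ _))
  refine ⟨fun x y w => Loop.rdiv (P x (y * w 0) (Fin.tail w)) (P x y (Fin.tail w)),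
    fun n x y s hx hy hs => (p1 n x _ _ hx (hy.mul (hs 0)) fun i => hs i.succ).rdiv
      (p1 n x y _ hx hy fun i => hs i.succ), ?_, fun x y w => ag_rdiv (e _ _ _ _),
    Fin.cons (uv i1) w, fun x y hx => ?_⟩
  · rintro x y w ⟨i, hi⟩
    cases i using Fin.cases with
    | zero => simp only [hi, Loop.mul_one, rdiv_self]
    | succ i => simp only [p2 x _ (Fin.tail w) ⟨i, hi⟩, rdiv_self]
  · rw [rdiv_c (e _ _ _ _) hj, Fin.tail_cons, Fin.cons_zero, p4 x y hx, p4 x _ hx, mul_c, uv_self,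
      th_off h1, add_zero, fwdDiff, mul_sub]

theorem Inv.wit (h0 : ¬ D.on i0) (h1 : ¬ D.on i1) (h01 : i1 ≠ i0) (hj : D.l j ≤ k + 1) {κ : R}
    (hκ : κ ≠ 0) {a b : ℕ} (ha : (a ! : R) ≠ 0) (hb : (b ! : R) ≠ 0)
    (H : Inv D R i0 i1 k j m (κ • fun r => r ^ a) fun r => r ^ b) : Wit D R (m + a + b) k j := by
  have e1 : ∀ n, Inv D R i0 i1 k j (m + n) ((fwdDiff 1)^[n] (κ • fun r => r ^ a))
      fun r => r ^ b := fun n => by
    induction n with
    | zero => exact H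
    | succ n ih => rw [Function.iterate_succ_apply']; exact ih.left h0 h1 h01 hj
  have e2 : ∀ n, Inv D R i0 i1 k j (m + a + n) ((fwdDiff 1)^[a] (κ • fun r => r ^ a))
      ((fwdDiff 1)^[n] fun r => r ^ b) := fun n => by
    induction n with
    | zero => exact e1 a
    | succ n ih => rw [Function.iterate_succ_apply']; exact ih.right h1 hj
  obtain ⟨P, p1, p2, p3, w, p4⟩ := e2 b
  refine ⟨P 1 1, p1 _ _ _ id (.const 1) (.const 1) .var, p2 1 1, p3 1 1, w, ?_⟩
  rw [p4 1 1 rfl, fwdDiff_iter_const_smul, fwdDiff_iter_eq_factorial, fwdDiff_iter_eq_factorial]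
  simpa using ⟨⟨hκ, ha⟩, hb⟩

omit [DecidableEq ι] in
theorem inv_comm (hj : D.on j) (ha : D.a j = i0) (hb : D.b j = i1) (hl : D.l j ≤ 2) :
    Inv D R i0 i1 1 j 0 ((1 : R) • fun r => r ^ D.α j) fun r => r ^ D.β j :=
  ⟨fun x y _ => Loop.rdiv (x * y) (y * x), fun _ _ _ _ hx hy _ => (hx.mul hy).rdiv (hy.mul hx),
    fun _ _ _ h => h.elim fun i => i.elim0, fun x y _ => ag_rdiv (ag_cen (ag_zero x 1) y y).1,
    default, fun x y hx => by
      rw [comm_c (ag_zero x 1) y hl, th_on hj, th_on hj, ha, hb, hx, zero_pow (D.β_ne j hj)]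
      simp⟩

omit [DecidableEq ι] in
theorem Wit.inv (H : Wit D R m k (D.a j)) (hl : D.l j ≤ k + 2) (hj : D.on j) (hα : D.α j = 1)
    (hβ : D.β j = 1) (hj' : D.on (D.b j)) (ha : D.a (D.b j) = i0) (hb : D.b (D.b j) = i1) :
    ∃ κ : R, κ ≠ 0 ∧
      Inv D R i0 i1 (k + 1) j m (κ • fun r => r ^ D.α (D.b j)) fun r => r ^ D.β (D.b j) := by
  obtain ⟨p, p1, p2, p3, w, p4⟩ := H
  refine ⟨_, neg_ne_zero.2 p4, fun x y w => Loop.rdiv (p w * x * y) (p w * (x * y)),
    fun _ _ _ _ hx hy hs => (((poly_subst p1 hs).mul hx).mul hy).rdiv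
      ((poly_subst p1 hs).mul (hx.mul hy)), fun x y w hw => ?_,
    fun x y w => ag_rdiv (ag_cen (p3 w) x y).2.1, w, fun x y _ => ?_⟩
  · simp only [p2 w hw, Loop.one_mul, rdiv_self]
  · rw [assoc_c (p3 w) x y hl hj hα hβ, th_on hj', ha, hb]
    simp [mul_assoc]

omit [DecidableEq ι] in
theorem Wit.comm {m' k' : ℕ} (H : Wit D R m k (D.a j)) (H' : Wit D R m' k' (D.b j))
    (hl : D.l j ≤ k + 2) (hj : D.on j) (hα : D.α j = 1) (hβ : D.β j = 1) (hb : D.l (D.b j) ≤ k) :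
    Wit D R (m + m') (k + 1) j := by
  obtain ⟨p, p1, p2, p3, w, p4⟩ := H
  obtain ⟨q, q1, q2, -, v, q4⟩ := H'
  have e1 := poly_subst p1 (s := fun u i => u (Fin.castAdd m' i)) fun i => .var _
  have e2 := poly_subst q1 (s := fun u i => u (Fin.natAdd m i)) fun i => .var _
  refine ⟨_, (e1.mul e2).rdiv (e2.mul e1), ?_, fun u => ag_rdiv (ag_cen (p3 _) _ 1).1,
    Fin.append w v, ?_⟩
  · rintro u ⟨i, hi⟩
    cases i using Fin.addCases with
    | left i => simp only [p2 (fun i => u (Fin.castAdd m' i)) ⟨i, hi⟩, Loop.one_mul, Loop.mul_one,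
        rdiv_self]
    | right i => simp only [q2 (fun i => u (Fin.natAdd m i)) ⟨i, hi⟩, Loop.one_mul, Loop.mul_one,
        rdiv_self]
  · simp only [Fin.append_left, Fin.append_right]
    rw [comm_c (p3 w) _ hl, th_on hj, th_on hj, hα, hβ, p3 w _ hb, one_c]
    simpa using ⟨p4, q4⟩

omit [DecidableEq ι] in
theorem Wit.assoc {m' m'' k' k'' : ℕ} (H : Wit D R m k (D.a j))
    (H' : Wit D R m' k' (D.a (D.b j))) (H'' : Wit D R m'' k'' (D.b (D.b j)))
    (hl : D.l j ≤ k + 2) (hj : D.on j) (hα : D.α j = 1) (hβ : D.β j = 1) (hj' : D.on (D.b j)) :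
    Wit D R (m + (m' + m'')) (k + 1) j := by
  obtain ⟨p, p1, p2, p3, w, p4⟩ := H
  obtain ⟨q, q1, q2, -, v, q4⟩ := H'
  obtain ⟨r, r1, r2, -, t, r4⟩ := H''
  have e1 := poly_subst p1 (s := fun u i => u (Fin.castAdd (m' + m'') i)) fun i => .var _
  have e2 := poly_subst q1 (s := fun u i => u (Fin.natAdd m (Fin.castAdd m'' i))) fun i => .var _
  have e3 := poly_subst r1 (s := fun u i => u (Fin.natAdd m (Fin.natAdd m' i))) fun i => .var _
  refine ⟨_, ((e1.mul e2).mul e3).rdiv (e1.mul (e2.mul e3)), ?_,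
    fun u => ag_rdiv (ag_cen (p3 _) _ _).2.1, Fin.append w (Fin.append v t), ?_⟩
  · rintro u ⟨i, hi⟩
    cases i using Fin.addCases with
    | left i => simp only [p2 (fun i => u (Fin.castAdd _ i)) ⟨i, hi⟩, Loop.one_mul, rdiv_self]
    | right i =>
      cases i using Fin.addCases with
      | left i => simp only [q2 (fun i => u (Fin.natAdd m (Fin.castAdd m'' i))) ⟨i, hi⟩,
          Loop.one_mul, Loop.mul_one, rdiv_self]
      | right i => simp only [r2 (fun i => u (Fin.natAdd m (Fin.natAdd m' i))) ⟨i, hi⟩,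
          Loop.mul_one, rdiv_self]
  · simp only [Fin.append_left, Fin.append_right]
    rw [assoc_c (p3 w) _ _ hl hj hα hβ, th_on hj']
    exact mul_ne_zero (neg_ne_zero.2 p4) (mul_ne_zero (pow_ne_zero _ q4) (pow_ne_zero _ r4))

theorem lev_ex (e t : ℕ) : ∃ j, t ≤ 2 ^ (j + 1) * (e + 1) :=
  ⟨t, (Nat.lt_two_pow_self.le.trans (Nat.pow_le_pow_right two_pos t.le_succ)).trans
    (Nat.le_mul_of_pos_right _ e.succ_pos)⟩

/-- The level of a degree. -/
def lg (e t : ℕ) : ℕ := Nat.find (lev_ex e t)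

theorem lg_le {e t j : ℕ} : lg e t ≤ j ↔ t ≤ 2 ^ (j + 1) * (e + 1) :=
  ⟨fun h => (Nat.find_spec (lev_ex e t)).trans
    (Nat.mul_le_mul_right _ (Nat.pow_le_pow_right two_pos (Nat.succ_le_succ h))),
    Nat.find_min' (lev_ex e t)⟩

theorem lg_mono {e t t' : ℕ} (h : t ≤ t') : lg e t ≤ lg e t' := lg_le.2 (h.trans (lg_le.1 le_rfl))

theorem lg_half {e t : ℕ} (h : 2 * (e + 1) < t) : lg e ((t + 1) / 2) + 1 = lg e t := by
  refine le_antisymm ?_ (lg_le.2 ?_)
  · have h1 := lg_le.1 (le_refl (lg e t))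
    rcases hm : lg e t with _ | m
    · rw [hm] at h1; omega
    · rw [hm, pow_succ, mul_right_comm] at h1
      exact Nat.succ_le_succ (lg_le.2 (by omega))
  · have h1 := lg_le.1 (le_refl (lg e ((t + 1) / 2)))
    rw [pow_succ, mul_right_comm]
    omega

/-- Truncation. -/
def cl (s t : ℕ) : Fin (s + 1) := ⟨min t s, by omega⟩

/-- The data of the examples. -/
def ex (n c s e : ℕ) (hs : 2 ≤ s) (hc : 2 ≤ c) : Dat (Fin (s + 1) ⊕ Fin (n + 1) ⊕ Unit) where
  on := Sum.elim (fun t => 2 ≤ t.1) (Sum.elim (fun k => 2 ≤ k.1) fun _ => True)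
  a := Sum.elim (fun t => .inl (cl s (if t.1 ≤ 2 * (e + 1) then 0 else (t.1 + 1) / 2)))
    (Sum.elim (fun _ => .inr (.inl (cl n 0))) fun _ => .inl (cl s 0))
  b := Sum.elim (fun t => .inl (cl s (if t.1 ≤ 2 * (e + 1) then 1 else t.1 / 2)))
    (Sum.elim (fun k => .inr (.inl (cl n (k.1 - 1)))) fun _ => .inl (cl s 1))
  α := Sum.elim (fun t => if t.1 ≤ 2 * (e + 1) then (t.1 + 1) / 2 else 1)
    (Sum.elim (fun _ => 1) fun _ => c - 1)
  β := Sum.elim (fun t => if t.1 ≤ 2 * (e + 1) then t.1 / 2 else 1)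
    (Sum.elim (fun _ => 1) fun _ => 1)
  l := Sum.elim (fun t => if t.1 ≤ 1 then 1 else lg e t.1 + 2)
    (Sum.elim (fun k => max k.1 1) fun _ => 2)
  α_ne := by rintro (t | k | _) h <;> simp only [Sum.elim_inl, Sum.elim_inr] at h ⊢ <;> grind
  β_ne := by rintro (t | k | _) h <;> simp only [Sum.elim_inl, Sum.elim_inr] at h ⊢ <;> grind
  l_pos := by rintro (t | k | _) <;> simp only [Sum.elim_inl, Sum.elim_inr] <;> grind
  la := by
    rintro (t | k | _) h <;> simp only [Sum.elim_inl, Sum.elim_inr, cl] at h ⊢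
    · have := @lg_half e t
      have := t.2
      grind
    all_goals grind
  lb := by
    rintro (t | k | _) h <;> simp only [Sum.elim_inl, Sum.elim_inr, cl] at h ⊢
    · have := @lg_half e t
      have := @lg_mono e (t / 2) ((t + 1) / 2) (by omega)
      have := t.2
      grind
    all_goals grind

theorem ex_wit {n c s e : ℕ} (hs : 2 ≤ s) (hc : 2 ≤ c) (hf : ∀ a ≤ s, (a ! : R) ≠ 0) (t : ℕ)
    (h1 : 1 ≤ t) (h2 : t ≤ s) :
    Wit (ex n c s e hs hc) R t (if t ≤ 1 then 0 else lg e t + 1) (.inl (cl s t)) := by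
  have e0 : ∀ t ≤ s, (cl s t).1 = t := fun t ht => min_eq_left ht
  have h0 : ¬ (ex n c s e hs hc).on (.inl (cl s 0)) := by simp [ex, cl]
  have h0' : ¬ (ex n c s e hs hc).on (.inl (cl s 1)) := by simp [ex, cl]
  have h01 : (.inl (cl s 1) : Fin (s + 1) ⊕ Fin (n + 1) ⊕ Unit) ≠ .inl (cl s 0) := by
    simp [cl]; omega
  have hon : ∀ t ≤ s, 2 ≤ t → (ex n c s e hs hc).on (.inl (cl s t)) := fun t h h' =>
    h'.trans (e0 t h).ge
  have hl : ∀ t ≤ s, (ex n c s e hs hc).l (.inl (cl s t)) = if t ≤ 1 then 1 else lg e t + 2 :=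
    fun t h => by simp only [ex, Sum.elim_inl, e0 t h]
  have lo : ∀ t ≤ s, t ≤ 2 * (e + 1) → (ex n c s e hs hc).a (.inl (cl s t)) = .inl (cl s 0) ∧
      (ex n c s e hs hc).b (.inl (cl s t)) = .inl (cl s 1) ∧
      (ex n c s e hs hc).α (.inl (cl s t)) = (t + 1) / 2 ∧
      (ex n c s e hs hc).β (.inl (cl s t)) = t / 2 := fun t h h' => by
    simp only [ex, Sum.elim_inl, e0 t h, if_pos h', and_self]
  have hi : ∀ t ≤ s, ¬ t ≤ 2 * (e + 1) →
      (ex n c s e hs hc).a (.inl (cl s t)) = .inl (cl s ((t + 1) / 2)) ∧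
      (ex n c s e hs hc).b (.inl (cl s t)) = .inl (cl s (t / 2)) ∧
      (ex n c s e hs hc).α (.inl (cl s t)) = 1 ∧
      (ex n c s e hs hc).β (.inl (cl s t)) = 1 := fun t h h' => by
    simp only [ex, Sum.elim_inl, e0 t h, if_neg h', and_self]
  induction t using Nat.strong_induction_on with
  | _ t ih =>
  rcases h1.eq_or_lt with rfl | h1
  · exact ⟨fun u => u 0, .var 0, fun u ⟨i, hi⟩ => Subsingleton.elim i 0 ▸ hi,
      fun u => ag_zero _ _, fun _ => uv (.inl (cl s 1)), (uv_self _).trans_ne one_ne_zero⟩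
  rw [if_neg (by omega)]
  have hl' := hl t h2
  rw [if_neg (by omega)] at hl'
  by_cases ht : t ≤ 2 * (e + 1)
  · obtain ⟨g1, g2, g3, g4⟩ := lo t h2 ht
    have h3 : lg e t = 0 := Nat.le_zero.1 (lg_le.2 (by simpa using ht))
    have := (inv_comm (R := R) (hon t h2 h1) g1 g2 (by omega)).wit h0 h0' h01 (by omega) one_ne_zero
      (hf _ (by omega)) (hf _ (by omega))
    rw [g3, g4, show 0 + (t + 1) / 2 + t / 2 = t by omega] at this
    rwa [h3]
  obtain ⟨g1, g2, g3, g4⟩ := hi t h2 ht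
  have h3 := lg_half (not_le.1 ht)
  have h4 := ih ((t + 1) / 2) (by omega) (by omega) (by omega)
  rw [if_neg (by omega), h3, ← g1] at h4
  by_cases hb : t / 2 = 1
  · have := h4.comm (g2 ▸ ih (t / 2) (by omega) (by omega) (by omega)) (by omega) (hon t h2 h1) g3
      g4 (by rw [g2, hl _ (by omega), if_pos hb.le]; omega)
    rwa [show (t + 1) / 2 + t / 2 = t by omega] at this
  have h5 := hon (t / 2) (by omega) (by omega)
  by_cases hb' : t / 2 ≤ 2 * (e + 1)
  · obtain ⟨f1, f2, f3, f4⟩ := lo (t / 2) (by omega) hb'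
    rw [← g2] at f1 f2 f3 f4 h5
    obtain ⟨κ, h6, h7⟩ := h4.inv (by omega) (hon t h2 h1) g3 g4 h5 f1 f2
    have := h7.wit h0 h0' h01 (by omega) h6 (hf _ (by omega)) (hf _ (by omega))
    rwa [f3, f4, show (t + 1) / 2 + (t / 2 + 1) / 2 + t / 2 / 2 = t by omega] at this
  · obtain ⟨f1, f2, -, -⟩ := hi (t / 2) (by omega) hb'
    have h6 := ih ((t / 2 + 1) / 2) (by omega) (by omega) (by omega)
    have h7 := ih (t / 2 / 2) (by omega) (by omega) (by omega)
    rw [← f1, ← g2] at h6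
    rw [← f2, ← g2] at h7
    have := h4.assoc h6 h7 (by omega) (hon t h2 h1) g3 g4 (g2 ▸ h5)
    rwa [show (t + 1) / 2 + ((t / 2 + 1) / 2 + t / 2 / 2) = t by omega] at this

theorem sufficient {n c s : ℕ} (hn : 2 ≤ n) (h1 : n ≤ c) (h2 : c ≤ s)
    (h3 : s ≤ 2 ^ (n - 1) * (c - n + 1)) :
    ∃ (Q : Type) (_ : Loop Q), Finite Q ∧ HasClasses Q n c s := by
  obtain ⟨p, hp, hpp⟩ := Nat.exists_infinite_primes (s + 1)
  have := Fact.mk hpp
  have hf : ∀ a ≤ s, (a ! : ZMod p) ≠ 0 := fun a ha h =>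
    absurd (hpp.dvd_factorial.1 ((ZMod.natCast_eq_zero_iff _ _).1 h)) (by omega)
  have hs : 2 ≤ s := by omega
  have hc : 2 ≤ c := by omega
  have hlg : ∀ t : Fin (s + 1), lg (c - n) t + 2 ≤ n := fun t => by
    have : lg (c - n) t ≤ n - 2 := lg_le.2 (by
      rw [show n - 2 + 1 = n - 1 by omega]; have := t.2; omega)
    omega
  let D := ex n c s (c - n) hs hc
  have e1 : lcs (Mlt (TQ D (ZMod p))) c = ⊥ := class_ub
    (w := Sum.elim (fun t => if t.1 ≤ 1 then 1 else c - n + 2 + lg (c - n) t.1)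
      (Sum.elim (fun k => max k.1 1) fun _ => c))
    (by rintro (t | k | _) <;> simp only [Sum.elim_inl, Sum.elim_inr] <;> grind) (by
      rintro (t | k | _) h <;> simp only [D, ex, Sum.elim_inl, Sum.elim_inr, cl] at h ⊢
      · have := @lg_half (c - n) t
        have := t.2
        grind
      all_goals grind) (by
      rintro (t | k | _) h <;> simp only [D, ex, Sum.elim_inl, Sum.elim_inr, cl] at h ⊢
      · have := @lg_half (c - n) t
        have := @lg_mono (c - n) (t / 2) ((t + 1) / 2) (by omega)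
        have := t.2
        grind
      all_goals grind) (by
      rintro (t | k | _) <;> simp only [Sum.elim_inl, Sum.elim_inr]
      · have := hlg t
        grind
      all_goals grind)
  have hnil : Group.IsNilpotent (Mlt (TQ D (ZMod p))) :=
    Subgroup.nilpotent_iff_lowerCentralSeries.2 ⟨c, e1⟩
  refine ⟨TQ D (ZMod p), inferInstance, inferInstance, ⟨series_ub ?_, fun k hk => series_lb
    (F := fun i => .inr (.inl (cl n (i + 1)))) (e := .inr (.inl (cl n 0))) (by simp [D, ex, cl])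
    (by simp [cl]; omega) (fun i hi => ?_) hk⟩,
    ⟨hnil, le_antisymm (Subgroup.lowerCentralSeries_eq_bot_iff_nilpotencyClass_le.1 e1) ?_⟩,
    ⟨by omega, sn_ub (σ := Sum.elim (fun t => max t.1 1) (Sum.elim (fun k => max k.1 1) fun _ => c))
      ?_ ?_ ?_⟩, fun k hk => ?_⟩
  · rintro (t | k | _) <;> simp only [D, ex, Sum.elim_inl, Sum.elim_inr]
    · have := hlg t
      grind
    all_goals grind
  · have : (cl n (i + 1 + 1)).1 = i + 2 := min_eq_left hi
    simp [D, ex, this]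
  · by_contra h
    exact class_lb (D := D) (M := .inr (.inr ())) trivial rfl rfl rfl (by simp [D, ex, cl])
      (by simp [D, ex, cl]; omega) (by simp [D, ex]) (by simp [D, ex]) (hf (c - 1) (by omega))
      (Subgroup.lowerCentralSeries_eq_bot_iff_nilpotencyClass_le.2
        (show _ ≤ c - 1 by omega))
  · rintro (t | k | _) <;> simp only [Sum.elim_inl, Sum.elim_inr] <;> grind
  · rintro (t | k | _) h <;> simp only [D, ex, Sum.elim_inl, Sum.elim_inr, cl] at h ⊢
    · have := t.2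
      grind
    all_goals grind
  · rintro (t | k | _) <;> simp only [Sum.elim_inl, Sum.elim_inr] <;> grind
  · by_contra h
    obtain ⟨q, q1, q2, -, u, q4⟩ := ex_wit (R := ZMod p) (n := n) (e := c - n) hs hc hf s
      (by omega) le_rfl
    obtain ⟨a, ha⟩ := hk.2 s (not_le.1 h) q q1 q2
    exact q4 (by rw [ha u, ← ha fun _ => 1, q2 _ ⟨⟨0, by omega⟩, rfl⟩, one_c])

end Pool.Agent.MP_829a29_al.Tri
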