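import Pool.Agent.MP_829a29_al.Main
import Pool.Agent.MP_829a29_al.TriDefs

set_option autoImplicit false

/-!
The inequalities between the three nilpotency classes of a loop.
-/

namespace Pool.Agent.MP_829a29_al.Tri

open scoped commutatorElement

variable {Q : Type*} [Loop Q]

theorem mul_ldiv (a b : Q) : a * Loop.ldiv a b = b := (Loop.mul_eq_iff_eq_ldiv a b _).2 rfl

theorem rdiv_mul (a b : Q) : Loop.rdiv b a * a = b := (Loop.mul_eq_iff_eq_rdiv a b _).2 rfl

theorem rdiv_self (a : Q) : Loop.rdiv a a = 1 :=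
  ((Loop.mul_eq_iff_eq_rdiv a a 1).1 (Loop.one_mul a)).symm

theorem left_inj (a : Q) : Function.Injective fun x => a * x := (leftMlt a).1.injective

theorem right_inj (a : Q) : Function.Injective fun x => x * a := (rightMlt a).1.injective

/-- Congruences. -/
structure Cong (r : Q → Q → Prop) : Prop where
  eqv : Equivalence r
  left : ∀ a {x y}, r (a * x) (a * y) ↔ r x y
  right : ∀ a {x y}, r (x * a) (y * a) ↔ r x y

/-- Centrality modulo a congruence. -/
def Cen (r : Q → Q → Prop) (a : Q) : Prop :=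
  ∀ x y : Q, r (a * x) (x * a) ∧ r ((a * x) * y) (a * (x * y)) ∧ r ((x * a) * y) (x * (a * y)) ∧
    r ((x * y) * a) (x * (y * a))

/-- Central chains of congruences. -/
structure Chain (r : ℕ → Q → Q → Prop) (k : ℕ) : Prop where
  cong : ∀ i ≤ k, Cong (r i)
  bot : ∀ x y, r 0 x y → x = y
  top : ∀ x y, r k x y
  mono : ∀ i < k, ∀ x y, r i x y → r (i + 1) x y
  cen : ∀ i < k, ∀ a, r (i + 1) a 1 → Cen (r i) a

theorem Cong.mul {r : Q → Q → Prop} (h : Cong r) {x x' y y' : Q} (h1 : r x x') (h2 : r y y') :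
    r (x * y) (x' * y') := h.eqv.trans ((h.right y).2 h1) ((h.left x').2 h2)

theorem Cong.iff {r : Q → Q → Prop} (h : Cong r) {x y : Q} : r x y ↔ ∃ n, r n 1 ∧ x = y * n :=
  ⟨fun h1 => ⟨Loop.ldiv y x, (h.left y).1 (by rwa [mul_ldiv, Loop.mul_one]), (mul_ldiv y x).symm⟩,
    by rintro ⟨n, h1, rfl⟩; simpa [Loop.mul_one] using (h.left y).2 h1⟩

theorem Cong.iff' {r : Q → Q → Prop} (h : Cong r) {x y : Q} : r x y ↔ ∃ n, r n 1 ∧ x = n * y :=
  ⟨fun h1 => ⟨Loop.rdiv x y, (h.right y).1 (by rwa [rdiv_mul, Loop.one_mul]), (rdiv_mul y x).symm⟩,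
    by rintro ⟨n, h1, rfl⟩; simpa [Loop.one_mul] using (h.right y).2 h1⟩

theorem Cong.normal {r : Q → Q → Prop} (h : Cong r) : IsNormalSubloop {n | r n 1} := by
  have e1 : ∀ x : Q, (fun n => x * n) '' {n | r n 1} = {z | r z x} := fun x =>
    Set.ext fun z => ⟨fun ⟨n, h1, h2⟩ => h.iff.2 ⟨n, h1, h2.symm⟩,
      fun hz => (h.iff.1 hz).imp fun n hn => ⟨hn.1, hn.2.symm⟩⟩
  have e2 : ∀ x : Q, (fun n => n * x) '' {n | r n 1} = {z | r z x} := fun x =>
    Set.ext fun z => ⟨fun ⟨n, h1, h2⟩ => h.iff'.2 ⟨n, h1, h2.symm⟩,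
      fun hz => (h.iff'.1 hz).imp fun n hn => ⟨hn.1, hn.2.symm⟩⟩
  refine ⟨h.eqv.refl 1, fun a ha b hb => by simpa [Loop.mul_one] using h.mul ha hb,
    fun a ha b hb => (h.left a).1 ?_, fun a ha b hb => (h.right b).1 ?_,
    fun x => (e1 x).trans (e2 x).symm, fun x y => ?_, fun x y => ?_⟩
  · rw [mul_ldiv, Loop.mul_one]; exact h.eqv.trans hb (h.eqv.symm ha)
  · rw [rdiv_mul, Loop.one_mul]; exact h.eqv.trans ha (h.eqv.symm hb)
  · rw [e1, ← Set.image_image (x * ·) (y * ·), e1]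
    exact Set.ext fun z => ⟨fun hz => ⟨Loop.ldiv x z, (h.left x).1 (by rwa [mul_ldiv]),
      mul_ldiv x z⟩, by rintro ⟨w, hw, rfl⟩; exact (h.left x).2 hw⟩
  · rw [e2, ← Set.image_image (· * y) (· * x), e2]
    exact Set.ext fun z => ⟨fun hz => ⟨Loop.rdiv z y, (h.right y).1 (by rwa [rdiv_mul]),
      rdiv_mul y z⟩, by rintro ⟨w, hw, rfl⟩; exact (h.right y).2 hw⟩

theorem normal_iff {N : Set Q} (h : IsNormalSubloop N) {x y : Q} :
    (∃ n ∈ N, x = y * n) ↔ (fun n => x * n) '' N = (fun n => y * n) '' N := by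
  constructor
  · rintro ⟨m, hm, rfl⟩
    rw [h.assoc_left, ← Set.image_image (y * ·) (m * ·)]
    congr 1
    exact Set.ext fun z => ⟨by rintro ⟨w, hw, rfl⟩; exact h.mul_mem _ hm _ hw,
      fun hz => ⟨_, h.ldiv_mem _ hm _ hz, mul_ldiv m z⟩⟩
  · intro e
    obtain ⟨n, hn, h1⟩ : x * 1 ∈ (fun n => y * n) '' N := e ▸ ⟨1, h.one_mem, rfl⟩
    exact ⟨n, hn, by rw [← Loop.mul_one x]; exact h1.symm⟩

theorem normal_cong {N : Set Q} (h : IsNormalSubloop N) : Cong fun x y => ∃ n ∈ N, x = y * n := by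
  simp only [normal_iff h]
  refine ⟨⟨fun _ => rfl, Eq.symm, Eq.trans⟩, fun a x y => ?_, fun a x y => ?_⟩
  · rw [h.assoc_left, h.assoc_left, ← Set.image_image (a * ·) (x * ·),
      ← Set.image_image (a * ·) (y * ·)]
    exact (Set.image_injective.2 (left_inj a)).eq_iff
  · rw [h.comm, h.comm, h.comm x, h.comm y, h.assoc_right, h.assoc_right,
      ← Set.image_image (· * a) (· * x), ← Set.image_image (· * a) (· * y)]
    exact (Set.image_injective.2 (right_inj a)).eq_iff

theorem series_iff {k : ℕ} : HasCentralSeries Q k ↔ ∃ r, Chain (Q := Q) r k := by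
  constructor
  · rintro ⟨N, h1, h2, h3, h4⟩
    refine ⟨fun i x y => ∃ n ∈ N i, x = y * n, fun i hi => normal_cong (h1 i hi), ?_,
      fun x y => ⟨_, h3 ▸ Set.mem_univ _, (mul_ldiv y x).symm⟩,
      fun i hi x y => fun ⟨n, hn, e⟩ => ⟨n, (h4 i hi).1 hn, e⟩, ?_⟩
    · rintro x y ⟨n, hn, rfl⟩
      rw [h2] at hn
      rw [hn, Loop.mul_one]
    · rintro i hi a ⟨n, hn, e⟩
      rw [Loop.one_mul] at e
      exact (h4 i hi).2 a (e ▸ hn)
  · rintro ⟨r, h⟩
    refine ⟨fun i => {n | r i n 1}, fun i hi => (h.cong i hi).normal,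
      Set.ext fun n => ⟨h.bot n 1, by rintro rfl; exact (h.cong 0 k.zero_le).eqv.refl _⟩,
      Set.eq_univ_of_forall fun n => h.top n 1, fun i hi => ⟨fun n => h.mono i hi n 1,
        fun a ha x y => ?_⟩⟩
    obtain ⟨h1, h2, h3, h4⟩ := h.cen i hi a ha x y
    have g := h.cong i hi.le
    exact ⟨g.iff.1 h1, g.iff.1 h2, g.iff.1 h3, g.iff.1 h4⟩

theorem mlt_induction {P : Mlt Q → Prop} (hl : ∀ a, P (leftMlt a)) (hr : ∀ a, P (rightMlt a))
    (h1 : P 1) (hm : ∀ g h, P g → P h → P (g * h)) (hi : ∀ g, P g → P g⁻¹) (g : Mlt Q) : P g := by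
  obtain ⟨g, hg⟩ := g
  induction hg using Subgroup.closure_induction with
  | mem x hx =>
    obtain ⟨a, h | h⟩ := hx
    · obtain rfl : x = leftMlt a := Equiv.ext h
      exact hl a
    · obtain rfl : x = rightMlt a := Equiv.ext h
      exact hr a
  | one => exact h1
  | mul x y _ _ hx hy => exact hm _ _ hx hy
  | inv x _ hx => exact hi _ hx

theorem bruck [Group.IsNilpotent (Mlt Q)] :
    HasCentralSeries Q (Group.nilpotencyClass (Mlt Q)) := by
  let r : ℕ → Q → Q → Prop := fun i x y => ∃ g ∈ Subgroup.upperCentralSeries (Mlt Q) i, g • x = y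
  have h1 : ∀ i (h : Mlt Q) x y, r i x y → r i (h • x) (h • y) := by
    rintro i h x _ ⟨g, hg, rfl⟩
    exact ⟨h * g * h⁻¹, Subgroup.Normal.conj_mem inferInstance g hg h, by simp [mul_smul]⟩
  have h2 : ∀ i (h : Mlt Q) {x y}, r i (h • x) (h • y) ↔ r i x y := fun i h x y =>
    ⟨fun h3 => by simpa using h1 i h⁻¹ _ _ h3, h1 i h x y⟩
  have h3 : ∀ i, Cong (r i) := fun i =>
    ⟨⟨fun x => ⟨1, one_mem _, one_smul _ x⟩, by
      rintro x _ ⟨g, hg, rfl⟩; exact ⟨g⁻¹, inv_mem hg, inv_smul_smul g x⟩, by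
      rintro x _ _ ⟨g, hg, rfl⟩ ⟨g', hg', rfl⟩; exact ⟨g' * g, mul_mem hg' hg, mul_smul _ _ _⟩⟩,
      fun a => h2 i (leftMlt a), fun a => h2 i (rightMlt a)⟩
  refine series_iff.2 ⟨r, fun i _ => h3 i, ?_, fun x y => ⟨rightMlt y * (rightMlt x)⁻¹, by
    rw [Subgroup.upperCentralSeries_nilpotencyClass]; trivial, ?_⟩,
    fun i _ x y => fun ⟨g, hg, e⟩ => ⟨g, Subgroup.upperCentralSeries_mono _ i.le_succ hg, e⟩,
    fun i _ a ha => ?_⟩
  · rintro x _ ⟨g, hg, rfl⟩
    rw [Subgroup.upperCentralSeries_zero, Subgroup.mem_bot] at hg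
    rw [hg, one_smul]
  · rw [mul_smul, show (rightMlt x)⁻¹ • x = 1 from rdiv_self x]
    exact Loop.one_mul y
  obtain ⟨g, hg, rfl⟩ := (h3 _).eqv.symm ha
  have h4 : ∀ (h : Mlt Q) (x : Q), r i (h • g • x) (g • h • x) := fun h x =>
    ⟨⁅g, h⁆, hg h, by simp [commutatorElement_def, mul_smul]⟩
  have h5 : ∀ x : Q, r i (g • (1 : Q) * x) (g • x) := fun x => by
    have := h4 (rightMlt x) 1
    rwa [show rightMlt x • (1 : Q) = x from Loop.one_mul x] at this
  have h6 : ∀ x : Q, r i (x * g • (1 : Q)) (g • x) := fun x => by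
    have := h4 (leftMlt x) 1
    rwa [show leftMlt x • (1 : Q) = x from Loop.mul_one x] at this
  have t := fun {x y z} => (h3 i).eqv.trans (x := x) (y := y) (z := z)
  have s := fun {x y} => (h3 i).eqv.symm (x := x) (y := y)
  exact fun x y => ⟨t (h5 x) (s (h6 x)),
    t (((h3 i).right y).2 (h5 x)) (t (h4 (rightMlt y) x) (s (h5 _))),
    t (((h3 i).right y).2 (h6 x)) (t (h4 (rightMlt y) x)
      (s (t (((h3 i).left x).2 (h5 y)) (h4 (leftMlt x) y)))),
    t (h6 _) (s (t (((h3 i).left x).2 (h6 y)) (h4 (leftMlt x) y)))⟩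

/-- Iterated commutators. -/
def itc {G : Type*} [Group G] : (k : ℕ) → (Fin k → G) → G → G
  | 0, _, g => g
  | k + 1, t, g => itc k (Fin.tail t) ⁅g, t 0⁆

theorem itc_one {G : Type*} [Group G] (k : ℕ) (t : Fin k → G) : itc k t 1 = 1 := by
  induction k with
  | zero => rfl
  | succ k ih => rw [itc, commutatorElement_one_left, ih]

theorem itc_eq_one {G : Type*} [Group G] (k : ℕ) (t : Fin k → G) (g : G) (i : Fin k)
    (hi : t i = 1) : itc k t g = 1 := by
  induction k generalizing g with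
  | zero => exact i.elim0
  | succ k ih =>
    rw [itc]
    cases i using Fin.cases with
    | zero => rw [hi, commutatorElement_one_right, itc_one]
    | succ i => exact ih _ _ i hi

/-- The translations. -/
def tr (b : Bool) (a : Q) : Mlt Q := cond b (leftMlt a) (rightMlt a)

theorem tr_one (b : Bool) : tr b (1 : Q) = 1 := by
  cases b
  exacts [Subtype.ext (Equiv.ext Loop.mul_one), Subtype.ext (Equiv.ext Loop.one_mul)]

theorem mem_ucs (k : ℕ) (g : Mlt Q)
    (h : ∀ (b : Fin k → Bool) (a : Fin k → Q), itc k (fun i => tr (b i) (a i)) g = 1) :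
    g ∈ Subgroup.upperCentralSeries (Mlt Q) k := by
  induction k generalizing g with
  | zero => exact Subgroup.mem_bot.2 (h default default)
  | succ k ih =>
    have h1 : ∀ b a, ⁅g, tr b a⁆ ∈ Subgroup.upperCentralSeries (Mlt Q) k := fun b a =>
      ih _ fun b' a' => h (Fin.cons b b') (Fin.cons a a')
    refine mlt_induction (P := fun x => ⁅g, x⁆ ∈ Subgroup.upperCentralSeries (Mlt Q) k) (h1 true)
      (h1 false) (by simp) (fun x y hx hy => ?_) fun x hx => ?_
    · have := mul_mem hx (Subgroup.Normal.conj_mem inferInstance _ hy x)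
      rwa [show ⁅g, x⁆ * (x * ⁅g, y⁆ * x⁻¹) = ⁅g, x * y⁆ by
        simp only [commutatorElement_def]; group] at this
    · have := Subgroup.Normal.conj_mem inferInstance _ (inv_mem hx) x⁻¹
      rwa [show x⁻¹ * ⁅g, x⁆⁻¹ * x⁻¹⁻¹ = ⁅g, x⁻¹⁆ by
        simp only [commutatorElement_def]; group] at this

/-- Polynomial families of permutations. -/
def PP {n : ℕ} (g : (Fin n → Q) → Mlt Q) : Prop :=
  ∀ q : (Fin n → Q) → Q, IsPolynomialOp q →
    IsPolynomialOp (fun u => g u • q u) ∧ IsPolynomialOp (fun u => (g u)⁻¹ • q u)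

theorem PP.itc {n : ℕ} (k : ℕ) {t : Fin k → (Fin n → Q) → Mlt Q} (ht : ∀ i, PP (t i))
    {g : (Fin n → Q) → Mlt Q} (hg : PP g) : PP fun u => itc k (fun i => t i u) (g u) := by
  induction k generalizing g with
  | zero => exact hg
  | succ k ih =>
    refine ih (t := fun i => t i.succ) (fun i => ht _) (g := fun u => ⁅g u, t 0 u⁆) fun q hq => ?_
    simp only [commutatorElement_def, mul_smul, mul_inv_rev, inv_inv]
    exact ⟨(hg _ (ht 0 _ (hg _ (ht 0 _ hq).2).2).1).1, (ht 0 _ (hg _ (ht 0 _ (hg _ hq).2).2).1).1⟩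

theorem pp_tr {n : ℕ} (b : Bool) (i : Fin n) : PP fun u : Fin n → Q => tr b (u i) := by
  cases b
  exacts [fun q hq => ⟨hq.mul (.var i), hq.rdiv (.var i)⟩,
    fun q hq => ⟨(IsPolynomialOp.var i).mul hq, (IsPolynomialOp.var i).ldiv hq⟩]

theorem class_le [Group.IsNilpotent (Mlt Q)] {s : ℕ} (h : IsKSupernilpotent Q s) :
    Group.nilpotencyClass (Mlt Q) ≤ s := by
  have h1 : ∀ b0 a0, tr b0 a0 ∈ Subgroup.upperCentralSeries (Mlt Q) s := fun b0 a0 =>
    mem_ucs s _ fun b a => Subtype.ext (Equiv.ext fun x => by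
      have h2 : IsAbsorbing fun u : Fin (s + 1) → Q =>
          Loop.rdiv (itc s (fun i => tr (b i) (u i.succ)) (tr b0 (u 0)) • x) x := by
        rintro u ⟨i, hi⟩
        cases i using Fin.cases with
        | zero => simp only [hi, tr_one, itc_one, one_smul, rdiv_self]
        | succ i => simp only [itc_eq_one s (fun i => tr (b i) (u i.succ)) _ i
            (by simp only [hi, tr_one]), one_smul, rdiv_self]
      obtain ⟨c, hc⟩ := h (s + 1) s.lt_succ_self _ ((PP.itc s (fun i => pp_tr (b i) i.succ)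
        (pp_tr b0 0) _ (.const x)).1.rdiv (.const x)) h2
      have h3 := (hc (Fin.cons a0 a)).trans ((hc fun _ => 1).symm.trans (h2 (fun _ => 1) ⟨0, rfl⟩))
      exact ((Loop.mul_eq_iff_eq_rdiv _ _ _).2 h3.symm).symm.trans (Loop.one_mul x))
  exact Subgroup.upperCentralSeries_eq_top_iff_nilpotencyClass_le.1 (eq_top_iff.2 fun g _ =>
    mlt_induction (h1 true) (h1 false) (one_mem _) (fun _ _ => mul_mem) (fun _ => inv_mem) g)

section cubes

variable {ι : Type*} [Fintype ι] [DecidableEq ι]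

/-- The index of the two-variable filtration. -/
def lv (a : Finset ι → ℕ) (S T : Finset ι) : ℕ :=
  if T = ∅ then 0 else if S = ∅ then a T else a T + 1

theorem cube_mul' {G : Type*} [Group G] [MulAction G Q] (l r : Q → G) (hl : ∀ a b, l a • b = a * b)
    (hr : ∀ a b, r b • a = a * b) {a b : Finset ι → ℕ} (ha : ∀ S T, a (S ∪ T) ≤ a S + a T + 1)
    (hb : ∀ S T, b (S ∪ T) ≤ max (a S) (a T) + 1) (hba : ∀ S, b S ≤ a S) (hb0 : b ∅ = 0)
    {c c' : Finset ι → Q} (hc : IsCube (fun S => lcs G (a S)) (1 : Q) c)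
    (hc' : IsCube (fun S => lcs G (a S)) (1 : Q) c') :
    IsCube (fun S => lcs G (b S)) (1 : Q) (fun v => c v * c' v) := by
  have e1 : ∀ S S' T T', lv a (S ∪ S') (T ∪ T') ≤ lv a S T + lv a S' T' + 1 := fun S S' T T' => by
    have h := ha T T'
    unfold lv
    by_cases hT : T = ∅ <;> by_cases hT' : T' = ∅ <;> by_cases hS : S = ∅ <;>
      by_cases hS' : S' = ∅ <;> simp [hT, hT', hS, hS'] <;> omega
  have e2 : ∀ S T, b (S ∪ T) ≤ max (lv a S T) (lv a T S) := fun S T => by
    have h := hb S T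
    unfold lv
    by_cases hT : T = ∅ <;> by_cases hS : S = ∅ <;> simp [hT, hS, hb0, hba]
    omega
  let A : Finset ι × Finset ι → Subgroup G := fun P => lcs G (lv a P.1 P.2)
  let B : Finset ι × Finset ι → Subgroup G := fun P => lcs G (lv a P.2 P.1)
  let C : Finset ι × Finset ι → Subgroup G := fun P => lcs G (max (lv a P.1 P.2) (lv a P.2 P.1))
  have hA : ∀ P P', ⁅A P, A P'⁆ ≤ A (P ⊔ P') :=
    filtration_of_index (G := G) (fun P : Finset ι × Finset ι => lv a P.1 P.2)
      (fun P P' => e1 _ _ _ _)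
  have hB : ∀ P P', ⁅B P, B P'⁆ ≤ B (P ⊔ P') :=
    filtration_of_index (G := G) (fun P : Finset ι × Finset ι => lv a P.2 P.1)
      (fun P P' => e1 _ _ _ _)
  have gfst : ∀ (S : Finset ι) (v : Finset ι × Finset ι), S ≤ v.1 ↔ (S, (∅ : Finset ι)) ≤ v := by
    intro S v; simp [Prod.le_def]
  have gsnd : ∀ (S : Finset ι) (v : Finset ι × Finset ι), S ≤ v.2 ↔ ((∅ : Finset ι), S) ≤ v := by
    intro S v; simp [Prod.le_def]
  have hΦA : IsCube A (1 : Q) (fun P : Finset ι × Finset ι => c P.1 * c' P.2) := by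
    have h1 : IsCube A (1 : Q) (fun P : Finset ι × Finset ι => c' P.2) :=
      hc'.comp Prod.snd (fun S => (∅, S)) gsnd (fun S => by
        apply lcs_anti
        simp only [lv]
        split_ifs <;> simp_all)
    have h2 : (fun P : Finset ι × Finset ι => l (c P.1)) ∈ HK A :=
      comp_mem_HK Prod.fst (fun S => (S, ∅)) gfst (fun S => by simp [A, lv, lcs])
        (mem_HK_top (fun v => l (c v)))
    simpa only [hl] using h1.smul h2
  have hΦB : IsCube B (1 : Q) (fun P : Finset ι × Finset ι => c P.1 * c' P.2) := by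
    have h1 : IsCube B (1 : Q) (fun P : Finset ι × Finset ι => c P.1) :=
      hc.comp Prod.fst (fun S => (S, ∅)) gfst (fun S => by
        apply lcs_anti
        simp only [lv]
        split_ifs <;> simp_all)
    have h2 : (fun P : Finset ι × Finset ι => r (c' P.2)) ∈ HK B :=
      comp_mem_HK Prod.snd (fun S => (∅, S)) gsnd (fun S => by simp [B, lv, lcs])
        (mem_HK_top (fun v => r (c' v)))
    simpa only [hr] using h1.smul h2
  have hid : ∀ S v : Finset ι × Finset ι, S ≤ id v ↔ id S ≤ v := fun _ _ => Iff.rfl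
  have hΦC : IsCube C (1 : Q) (fun P : Finset ι × Finset ι => c P.1 * c' P.2) := by
    apply isCube_of_corner
    intro d hd P hP
    rcases le_total (lv a P.1 P.2) (lv a P.2 P.1) with hle | hle
    · have hdB : IsCube B (1 : Q) d :=
        hd.comp id id hid (fun S => lcs_anti (le_max_right _ _))
      obtain ⟨g, hg, e⟩ := IsCube.corner hB (fun _ => inferInstance) hdB hΦB P hP
      exact ⟨g, by simpa only [C, max_eq_right hle] using hg, e⟩
    · have hdA : IsCube A (1 : Q) d :=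
        hd.comp id id hid (fun S => lcs_anti (le_max_left _ _))
      obtain ⟨g, hg, e⟩ := IsCube.corner hA (fun _ => inferInstance) hdA hΦA P hP
      exact ⟨g, by simpa only [C, max_eq_left hle] using hg, e⟩
  exact IsCube.comp (F := C) (F' := fun S => lcs G (b S)) (fun v : Finset ι => (v, v))
    (fun P : Finset ι × Finset ι => P.1 ⊔ P.2)
    (fun P v => by rw [Prod.le_def, sup_le_iff])
    (fun P => lcs_anti (e2 P.1 P.2)) hΦC

end cubes

/-- The bound, with both classes counted from zero. -/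
def psi : ℕ → ℕ → ℕ
  | 0, w => w + 1
  | _ + 1, 0 => 1
  | m + 1, w + 1 => 2 * psi m w

theorem psi_zero (m : ℕ) : psi m 0 = 1 := by cases m <;> rfl

theorem psi_lt (m : ℕ) : ∀ w, psi m w < psi m (w + 1) := by
  induction m with
  | zero => intro w; simp [psi]
  | succ m ih =>
    rintro (_ | w)
    · simp [psi, psi_zero]
    · have := ih w
      simp only [psi]; omega

theorem psi_mono (m : ℕ) : StrictMono (psi m) := strictMono_nat_of_lt_succ (psi_lt m)

theorem psi_add (m : ℕ) : ∀ u v, psi m u + psi m v ≤ psi m (u + v + 1) := by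
  induction m with
  | zero => intro u v; simp only [psi]; omega
  | succ m ih =>
    rintro (_ | u) (_ | v)
    · simp [psi, psi_zero]
    · have := psi_lt m v
      simp only [psi, zero_add]; omega
    · have := psi_lt m u
      simp only [psi]; omega
    · have := ih u v
      have h2 : psi m (u + v + 1) < psi m (u + v + 2) := psi_lt m (u + v + 1)
      rw [show u + 1 + (v + 1) + 1 = u + v + 2 + 1 by ring]
      simp only [psi]; omega

theorem psi_le (m : ℕ) : ∀ w, psi m w ≤ psi (m + 1) w := by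
  induction m with
  | zero => rintro (_ | w) <;> simp only [psi] <;> omega
  | succ m ih =>
    rintro (_ | w)
    · rfl
    · have := ih w
      simp only [psi]; omega

theorem psi_eq (m e : ℕ) : psi m (e + m) = 2 ^ m * (e + 1) := by
  induction m with
  | zero => simp [psi]
  | succ m ih => rw [← add_assoc, psi, ih]; ring

theorem psi_ex (m s : ℕ) : ∃ w, s ≤ psi m w := ⟨s, (psi_mono m).le_apply⟩

/-- The inverse of the bound. -/
def idx (m s : ℕ) : ℕ := Nat.find (psi_ex m s)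

theorem idx_le {m s w : ℕ} : idx m s ≤ w ↔ s ≤ psi m w :=
  ⟨fun h => (Nat.find_spec (psi_ex m s)).trans ((psi_mono m).monotone h),
    Nat.find_min' (psi_ex m s)⟩

theorem idx_add {ι : Type*} [DecidableEq ι] (m : ℕ) (S T : Finset ι) :
    idx m (S ∪ T).card ≤ idx m S.card + idx m T.card + 1 :=
  idx_le.2 ((Finset.card_union_le S T).trans ((add_le_add (idx_le.1 le_rfl) (idx_le.1 le_rfl)).trans
    (psi_add m _ _)))

/-- The filtrations. -/
def Fm (Q : Type*) [Loop Q] (ι : Type*) : ℕ → Finset ι → Subgroup (Mlt Q)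
  | 0, _ => ⊥
  | m + 1, S => lcs (Mlt Q) (idx m S.card)

/-- Cubes modulo a congruence. -/
def CM {V : Type*} [SemilatticeSup V] (F : V → Subgroup (Mlt Q)) (r : Q → Q → Prop) (c : V → Q) :
    Prop := ∃ γ ∈ HK F, ∀ v, r (γ v • (1 : Q)) (c v)

theorem Cong.smul {r : Q → Q → Prop} (h : Cong r) (g : Mlt Q) :
    ∀ {x y}, r (g • x) (g • y) ↔ r x y :=
  mlt_induction (P := fun g => ∀ {x y}, r (g • x) (g • y) ↔ r x y) h.left h.right (by simp)
    (fun g g' h1 h2 x y => by rw [mul_smul, mul_smul, h1, h2])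
    (fun g h1 x y => by rw [← h1, smul_inv_smul, smul_inv_smul]) g

theorem Cong.comm {r : Q → Q → Prop} (h : Cong r) {z : Q} (hz : Cen r z) (g : Mlt Q) :
    ∀ x, r (g • (x * z)) (g • x * z) :=
  mlt_induction (P := fun g => ∀ x, r (g • (x * z)) (g • x * z))
    (fun a x => h.eqv.symm (hz a x).2.2.2)
    (fun a x => h.eqv.trans (hz x a).2.2.1 (h.eqv.trans ((h.left x).2 (hz a a).1)
      (h.eqv.symm (hz x a).2.2.2))) (fun x => by simpa using h.eqv.refl _)
    (fun g g' h1 h2 x => by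
      rw [mul_smul, mul_smul]; exact h.eqv.trans ((h.smul g).2 (h2 x)) (h1 _))
    (fun g h1 x => by
      rw [← h.smul g, smul_inv_smul]
      simpa using h.eqv.symm (h1 (g⁻¹ • x))) g

section step

variable {V : Type*} [SemilatticeSup V] {F F' : V → Subgroup (Mlt Q)} {r r' : Q → Q → Prop}

theorem CM.of {c c' : V → Q} (h : Cong r) (hc : CM F r c) (e : ∀ v, r (c v) (c' v)) : CM F r c' :=
  hc.imp fun _ hγ => ⟨hγ.1, fun v => h.eqv.trans (hγ.2 v) (e v)⟩

theorem CM.central (h : Cong r) {c e z : V → Q} (hz : ∀ v, Cen r (z v)) (hc : CM F r c)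
    (hcz : CM F r fun v => c v * z v) (he : CM F r e) : CM F r fun v => e v * z v := by
  obtain ⟨γ0, h0, e0⟩ := hc
  obtain ⟨γ, h1, e1⟩ := hcz
  obtain ⟨ε, h2, e2⟩ := he
  refine ⟨ε * (γ0⁻¹ * γ), mul_mem h2 (mul_mem (inv_mem h0) h1), fun v => ?_⟩
  have h3 : r ((γ0 v)⁻¹ • γ v • (1 : Q)) (1 * z v) := by
    rw [← h.smul (γ0 v), smul_inv_smul]
    exact h.eqv.trans (e1 v) (h.eqv.symm (h.eqv.trans (h.comm (hz v) _ _) ((h.right _).2 (e0 v))))
  simp only [Pi.mul_apply, Pi.inv_apply, mul_smul]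
  exact h.eqv.trans ((h.smul _).2 h3) (h.eqv.trans (h.comm (hz v) _ _) ((h.right _).2 (e2 v)))

theorem CM.split (h' : Cong r') (hz : ∀ a, r' a 1 → Cen r a) {c : V → Q}
    (hc : CM F' r' c) : ∃ c0 z : V → Q, IsCube F' (1 : Q) c0 ∧ (∀ v, Cen r (z v)) ∧
      c = fun v => c0 v * z v := by
  obtain ⟨γ, h1, e⟩ := hc
  choose z h2 h3 using fun v => h'.iff.1 (h'.eqv.symm (e v))
  exact ⟨_, z, ⟨γ, h1, fun _ => rfl⟩, fun v => hz _ (h2 v), funext h3⟩

theorem cm_of_cube (h : Cong r) (hF : ∀ S, F' S ≤ F S) {c : V → Q} (hc : IsCube F' (1 : Q) c) :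
    CM F r c := by
  obtain ⟨γ, h1, e⟩ := hc.comp (F' := F) id id (fun _ _ => Iff.rfl) hF
  exact ⟨γ, h1, fun v => by rw [e v]; exact h.eqv.refl _⟩

theorem CM.mul (h : Cong r) (h' : Cong r') (hz : ∀ a, r' a 1 → Cen r a) (hF : ∀ S, F' S ≤ F S)
    (hm : ∀ c c' : V → Q, IsCube F' (1 : Q) c → IsCube F' (1 : Q) c' →
      IsCube F (1 : Q) fun v => c v * c' v) {c c' : V → Q} (h1 : CM F' r' c) (h2 : CM F r c)
    (h3 : CM F' r' c') (h4 : CM F r c') : CM F r fun v => c v * c' v := by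
  obtain ⟨a, z, ha, hz1, rfl⟩ := h1.split h' hz
  obtain ⟨b, w, hb, hw, rfl⟩ := h3.split h' hz
  refine (CM.central h hw (cm_of_cube h hF hb) h4 (CM.central h hz1 (cm_of_cube h hF ha) h2
    (cm_of_cube h (fun _ => le_rfl) (hm a b ha hb)))).of h fun v => ?_
  exact h.eqv.trans ((h.right _).2 (h.eqv.symm (h.comm (hz1 v) (rightMlt (b v)) (a v))))
    (hw v _ _).2.2.2

end step

theorem upper {r : ℕ → Q → Q → Prop} {m c : ℕ} (h : Chain r (m + 1)) (hc : lcs (Mlt Q) (c + 1) = ⊥) :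
    IsKSupernilpotent Q (psi m c) := by
  intro k hk p hp habs
  refine ⟨1, fun x => ?_⟩
  have hF : ∀ j (S : Finset (Fin k)), Fm Q (Fin k) j S ≤ Fm Q (Fin k) (j + 1) S := by
    rintro (_ | j) S
    · exact bot_le
    · exact lcs_anti (idx_le.2 ((idx_le.1 le_rfl).trans (psi_le _ _)))
  have hm : ∀ j (c c' : Finset (Fin k) → Q), IsCube (Fm Q (Fin k) j) (1 : Q) c →
      IsCube (Fm Q (Fin k) j) (1 : Q) c' →
      IsCube (Fm Q (Fin k) (j + 1)) (1 : Q) fun v => c v * c' v := by
    rintro (_ | j) c c' h1 h2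
    · have key : ∀ c : Finset (Fin k) → Q, IsCube (Fm Q (Fin k) 0) (1 : Q) c → ∀ v, c v = 1 := by
        rintro c ⟨γ, h1, e⟩ v
        have : HK (Fm Q (Fin k) 0) ≤ ⊥ := (Subgroup.closure_le _).2 (by
          rintro _ ⟨S, -, g, hg, rfl⟩
          rw [Subgroup.mem_bot.1 hg, face_one]; exact one_mem _)
        rw [← e, Subgroup.mem_bot.1 (this h1)]; rfl
      simp only [key c h1, key c' h2, Loop.mul_one]
      exact isCube_base _ _
    · refine cube_mul' leftMlt rightMlt (fun _ _ => rfl) (fun _ _ => rfl) (idx_add j)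
        (fun S T => idx_le.2 ((Finset.card_union_le S T).trans ?_))
        (fun S => idx_le.2 ((idx_le.1 le_rfl).trans (psi_le _ _)))
        (Nat.le_zero.1 (idx_le.2 (by simp))) h1 h2
      rw [psi, two_mul]
      exact add_le_add (idx_le.1 (le_max_left _ _)) (idx_le.1 (le_max_right _ _))
  have hface : ∀ (S : Finset (Fin k)) (a : Q), S.card ≤ 1 → ∀ j,
      face S (leftMlt a) ∈ HK (Fm Q (Fin k) (j + 1)) := fun S a hS j =>
    face_mem_HK (by
      rw [Fm, Nat.le_zero.1 (idx_le.2 (by rwa [psi_zero]))]; exact Subgroup.mem_top _)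
  have key : ∀ j i, i + j = m + 1 →
      CM (Fm Q (Fin k) j) (r i) fun v => p fun i => if i ∈ v then x i else 1 := by
    clear habs
    induction hp with
    | var t =>
      rintro (_ | j) i hi
      · exact ⟨1, one_mem _, fun v => (show i = m + 1 from hi) ▸ h.top _ _⟩
      refine ⟨_, hface {t} (x t) (by simp) j, fun v => ?_⟩
      beta_reduce
      by_cases hv : t ∈ v
      · rw [face_of_le _ (by simpa using hv), if_pos hv, show leftMlt (x t) • (1 : Q) = x t from
          Loop.mul_one _]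
        exact (h.cong i (by omega)).eqv.refl _
      · rw [face_of_not_le _ (by simpa using hv), one_smul, if_neg hv]
        exact (h.cong i (by omega)).eqv.refl _
    | const a =>
      rintro (_ | j) i hi
      · exact ⟨1, one_mem _, fun v => (show i = m + 1 from hi) ▸ h.top _ _⟩
      refine ⟨_, hface ∅ a (by simp) j, fun v => ?_⟩
      rw [face_of_le _ (Finset.empty_subset v), show leftMlt a • (1 : Q) = a from Loop.mul_one _]
      exact (h.cong i (by omega)).eqv.refl _
    | mul _ _ h1 h2 =>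
      rintro (_ | j) i hi
      · exact ⟨1, one_mem _, fun v => (show i = m + 1 from hi) ▸ h.top _ _⟩
      exact CM.mul (h.cong i (by omega)) (h.cong (i + 1) (by omega)) (h.cen i (by omega)) (hF j)
        (hm j) (h1 j _ (by omega)) (h1 _ _ hi) (h2 j _ (by omega)) (h2 _ _ hi)
    | ldiv _ _ h1 h2 =>
      intro j
      induction j with
      | zero => exact fun i hi => ⟨1, one_mem _, fun v => (show i = m + 1 from hi) ▸ h.top _ _⟩
      | succ j ih =>
        intro i hi
        have g := h.cong i (by omega)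
        have g' := h.cong (i + 1) (by omega)
        obtain ⟨e, z, he, hz, e1⟩ := (ih (i + 1) (by omega)).split g' (h.cen i (by omega))
        rw [e1]
        refine CM.central g hz (CM.mul g g' (h.cen i (by omega)) (hF j) (hm j) (h1 j _ (by omega))
          (h1 _ _ hi) (cm_of_cube g' (fun _ => le_rfl) he) (cm_of_cube g (hF j) he))
          ((h2 _ _ hi).of g fun v => g.eqv.symm (g.eqv.trans (hz v _ _).2.2.2 ?_))
          (cm_of_cube g (hF j) he)
        rw [← congrFun e1 v, mul_ldiv]; exact g.eqv.refl _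
    | rdiv _ _ h1 h2 =>
      intro j
      induction j with
      | zero => exact fun i hi => ⟨1, one_mem _, fun v => (show i = m + 1 from hi) ▸ h.top _ _⟩
      | succ j ih =>
        intro i hi
        have g := h.cong i (by omega)
        have g' := h.cong (i + 1) (by omega)
        obtain ⟨e, z, he, hz, e1⟩ := (ih (i + 1) (by omega)).split g' (h.cen i (by omega))
        rw [e1]
        refine CM.central g hz (CM.mul g g' (h.cen i (by omega)) (hF j) (hm j)
          (cm_of_cube g' (fun _ => le_rfl) he) (cm_of_cube g (hF j) he) (h2 j _ (by omega))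
          (h2 _ _ hi)) ((h1 _ _ hi).of g fun v => g.eqv.trans ?_
            (g.comm (hz v) (rightMlt _) (e v))) (cm_of_cube g (hF j) he)
        rw [← congrFun e1 v]
        show r i _ (Loop.rdiv _ _ * _)
        rw [rdiv_mul]; exact g.eqv.refl _
  obtain ⟨γ, h1, e⟩ := key (m + 1) 0 (zero_add _)
  obtain ⟨g, hg, e⟩ := IsCube.corner (F := Fm Q (Fin k) (m + 1))
    (filtration_of_index (fun S : Finset (Fin k) => idx m S.card) (idx_add m))
    (fun _ => inferInstanceAs (lcs (Mlt Q) _).Normal) (isCube_base _ (1 : Q))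
    ⟨γ, h1, fun v => h.bot _ _ (e v)⟩ Finset.univ (fun v hv => by
      obtain ⟨i, -, hi⟩ := Finset.exists_of_ssubset hv
      exact (habs _ ⟨i, by simp [hi]⟩).symm)
  have := lcs_anti (show c + 1 ≤ idx m (Finset.univ : Finset (Fin k)).card from
    not_le.1 fun h => absurd (idx_le.1 h) (by simpa using hk)) hg
  rw [hc] at this
  simpa [Subgroup.mem_bot.1 this] using e.symm

theorem necessary {n c s : ℕ} (hn : 2 ≤ n) (h : HasClasses Q n c s) :
    n ≤ c ∧ c ≤ s ∧ s ≤ 2 ^ (n - 1) * (c - n + 1) := by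
  obtain ⟨h1, ⟨h2, rfl⟩, h3⟩ := h
  have h4 := h1.2 bruck
  obtain ⟨r, hr⟩ := series_iff.1 h1.1
  obtain ⟨m, rfl⟩ : ∃ m, n = m + 1 := ⟨n - 1, by omega⟩
  obtain ⟨e, he⟩ := Nat.exists_eq_add_of_le h4
  refine ⟨h4, class_le h3.1.2, h3.2 ⟨Nat.one_le_iff_ne_zero.2 (by positivity), ?_⟩⟩
  rw [he, Nat.add_sub_cancel, Nat.add_sub_cancel_left, ← psi_eq]
  refine upper hr ?_
  rw [show e + m + 1 = Group.nilpotencyClass (Mlt Q) by omega]
  exact Subgroup.lowerCentralSeries_nilpotencyClass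

end Pool.Agent.MP_829a29_al.Tri
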